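import Pool.Agent.H617R3.AP.Wide
import Pool.Agent.TH106.AP3

/-! Largest progression-free subsets of a set of positive integers; periodic sets. -/

set_option autoImplicit false

namespace Pool.Agent.Q146.SF

open Finset Pool.Agent.H617R3.AP

open Classical in
/-- the largest size of a subset of `S ∩ {1, ..., N}` without arithmetic progressions of length
`k` -/
noncomputable def rS (k : ℕ) (S : Set ℕ) (N : ℕ) : ℕ :=
  ((Icc 1 N).powerset.filter (fun A => APFree k A ∧ ∀ n ∈ A, n ∈ S)).sup card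

theorem le_rS {k N : ℕ} {S : Set ℕ} {A : Finset ℕ} (hA : A ⊆ Icc 1 N) (hF : APFree k A)
    (hS : ∀ n ∈ A, n ∈ S) : A.card ≤ rS k S N := by
  classical
  unfold rS
  exact Finset.le_sup (f := card) (by
    rw [mem_filter, mem_powerset]
    exact ⟨hA, hF, hS⟩)

theorem exists_rS {k : ℕ} (hk : 1 ≤ k) (S : Set ℕ) (N : ℕ) :
    ∃ A : Finset ℕ, A ⊆ Icc 1 N ∧ APFree k A ∧ (∀ n ∈ A, n ∈ S) ∧ A.card = rS k S N := by
  classical
  have hne : ((Icc 1 N).powerset.filter (fun A => APFree k A ∧ ∀ n ∈ A, n ∈ S)).Nonempty := by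
    refine ⟨∅, ?_⟩
    rw [mem_filter]
    refine ⟨empty_mem_powerset _, fun a d _ h => ?_, fun n hn => absurd hn (notMem_empty n)⟩
    have := h 0 (by omega)
    simp at this
  obtain ⟨A, hA, hA2⟩ := Finset.exists_mem_eq_sup _ hne card
  rw [mem_filter, mem_powerset] at hA
  exact ⟨A, hA.1, hA.2.1, hA.2.2, hA2.symm⟩

theorem rS_le_r {k : ℕ} (hk : 1 ≤ k) (S : Set ℕ) (N : ℕ) : rS k S N ≤ r k N := by
  obtain ⟨A, h1, h2, -, h4⟩ := exists_rS hk S N
  rw [← h4]
  exact card_le_r h1 h2

theorem rS_mono {k : ℕ} (hk : 1 ≤ k) {S T : Set ℕ} {M N : ℕ} (hST : S ⊆ T) (h : M ≤ N) :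
    rS k S M ≤ rS k T N := by
  obtain ⟨A, h1, h2, h3, h4⟩ := exists_rS hk S M
  rw [← h4]
  refine le_rS (h1.trans ?_) h2 fun n hn => hST (h3 n hn)
  exact Icc_subset_Icc_right h

theorem apfree_shift {k : ℕ} {A : Finset ℕ} (hA : APFree k A) (t : ℕ) (h1 : ∀ n ∈ A, 1 ≤ n) :
    APFree k (A.image fun n => n + t) := by
  intro a d hd h
  have h2 : ∀ i < k, ∃ n ∈ A, n + t = a + i * d := fun i hi => by
    have := h i hi
    rw [mem_image] at this
    exact this
  by_cases hk : k = 0
  · subst hk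
    exact hA 0 1 (le_refl _) fun i hi => absurd hi (Nat.not_lt_zero i)
  · obtain ⟨n, hn, hn2⟩ := h2 0 (by omega)
    have hat : a = n + t := by omega
    refine hA n d hd fun i hi => ?_
    obtain ⟨m, hm, hm2⟩ := h2 i hi
    have : m = n + i * d := by omega
    rwa [this] at hm

open Classical in
/-- a lower bound from the density in short intervals -/
theorem lower_general {k : ℕ} (hk : 1 ≤ k) (S : Set ℕ) {M h : ℕ} (hh : 1 ≤ h) {κ : ℝ}
    (hκ : ∀ a ∈ Icc 1 M, κ * h ≤ (((range h).filter fun t => a + t ∈ S).card : ℝ)) :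
    κ * r k M ≤ rS k S (M + h) := by
  obtain ⟨A, h1, h2, h3⟩ := exists_opt hk M
  have hsum : ∑ t ∈ range h, ((A.filter fun a => a + t ∈ S).card : ℝ) =
      ∑ a ∈ A, (((range h).filter fun t => a + t ∈ S).card : ℝ) := by
    have h4 : ∑ t ∈ range h, (A.filter fun a => a + t ∈ S).card =
        ∑ a ∈ A, ((range h).filter fun t => a + t ∈ S).card := by
      simp only [card_filter]
      exact sum_comm
    exact_mod_cast h4
  have hlow : κ * h * r k M ≤ ∑ t ∈ range h, ((A.filter fun a => a + t ∈ S).card : ℝ) := by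
    rw [hsum, ← h3, mul_comm, ← nsmul_eq_mul]
    exact card_nsmul_le_sum _ _ _ fun a ha => hκ a (h1 ha)
  have hh0 : (0 : ℝ) < h := by exact_mod_cast hh
  by_contra hcon
  push Not at hcon
  have hup : ∑ t ∈ range h, ((A.filter fun a => a + t ∈ S).card : ℝ) ≤
      ∑ t ∈ range h, (rS k S (M + h) : ℝ) := by
    refine sum_le_sum fun t ht => ?_
    rw [mem_range] at ht
    have hc : ((A.filter fun a => a + t ∈ S).image fun n => n + t).card =
        (A.filter fun a => a + t ∈ S).card :=
      card_image_of_injective _ fun a b hab => by simpa using hab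
    rw [← hc]
    have hle : ((A.filter fun a => a + t ∈ S).image fun n => n + t).card ≤ rS k S (M + h) := by
      refine le_rS ?_ ?_ ?_
      · intro n hn
        rw [mem_image] at hn
        obtain ⟨m, hm, rfl⟩ := hn
        rw [mem_filter] at hm
        have := h1 hm.1
        rw [mem_Icc] at this ⊢
        omega
      · exact apfree_shift (h2.mono (filter_subset _ _)) t fun n hn =>
          (mem_Icc.1 (h1 (mem_filter.1 hn).1)).1
      · intro n hn
        rw [mem_image] at hn
        obtain ⟨m, hm, rfl⟩ := hn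
        exact (mem_filter.1 hm).2
    exact_mod_cast hle
  rw [sum_const, card_range, nsmul_eq_mul] at hup
  nlinarith

open Classical in
theorem periodic_lower' {k : ℕ} (hk : 1 ≤ k) {q : ℕ} (hq : 1 ≤ q) {B : Finset ℕ}
    (hB : B ⊆ range q) (S : Set ℕ) (hS : ∀ n, n % q ∈ B → n ∈ S) (M : ℕ) :
    (B.card : ℝ) / q * r k M ≤ rS k S (M + q) := by
  have hq0 : (0 : ℝ) < q := by exact_mod_cast hq
  refine lower_general hk _ hq fun a _ => ?_
  rw [div_mul_cancel₀ _ hq0.ne']
  have h1 : B.card ≤ ((range q).filter fun t => a + t ∈ S).card := by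
    refine card_le_card_of_injOn (fun b => (b + q * a - a) % q) ?_ ?_
    · intro b hb
      have hbq := mem_range.1 (hB hb)
      simp only [coe_filter, mem_range, Set.mem_ofPred_eq]
      refine ⟨Nat.mod_lt _ hq, hS _ ?_⟩
      have h2 : a ≤ b + q * a := by nlinarith
      have h3 : (a + (b + q * a - a) % q) % q = b := by
        rw [Nat.add_mod_mod]
        have : a + (b + q * a - a) = b + q * a := by omega
        rw [this, Nat.add_mul_mod_self_left, Nat.mod_eq_of_lt hbq]
      rw [h3]
      exact hb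
    · intro b hb b' hb' h
      have hbq := mem_range.1 (hB hb)
      have hbq' := mem_range.1 (hB hb')
      simp only at h
      have h2 : a ≤ b + q * a := by nlinarith
      have h2' : a ≤ b' + q * a := by nlinarith
      have e1 : (a + (b + q * a - a) % q) % q = b := by
        rw [Nat.add_mod_mod]
        have : a + (b + q * a - a) = b + q * a := by omega
        rw [this, Nat.add_mul_mod_self_left, Nat.mod_eq_of_lt hbq]
      have e2 : (a + (b' + q * a - a) % q) % q = b' := by
        rw [Nat.add_mod_mod]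
        have : a + (b' + q * a - a) = b' + q * a := by omega
        rw [this, Nat.add_mul_mod_self_left, Nat.mod_eq_of_lt hbq']
      rw [← e1, h, e2]
  exact_mod_cast h1

theorem periodic_lower {k : ℕ} (hk : 1 ≤ k) {q : ℕ} (hq : 1 ≤ q) {B : Finset ℕ}
    (hB : B ⊆ range q) (M : ℕ) :
    (B.card : ℝ) / q * r k M ≤ rS k {n | n % q ∈ B} (M + q) :=
  periodic_lower' hk hq hB _ (fun _ h => h) M

theorem periodic_upper {k : ℕ} (hk : 1 ≤ k) {q : ℕ} (hq : 1 ≤ q) (B : Finset ℕ) (N : ℕ) :
    rS k {n | n % q ∈ B} N ≤ B.card * r k (N / q + 1) := by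
  classical
  obtain ⟨A, h1, h2, h3, h4⟩ := exists_rS hk {n | n % q ∈ B} N
  rw [← h4]
  have h5 : ∀ a ∈ A, a % q ∈ B := h3
  rw [card_eq_sum_card_fiberwise (f := fun n => n % q) (t := B) h5]
  rw [← smul_eq_mul]
  refine sum_le_card_nsmul _ _ _ fun b _ => ?_
  have h6 := card_class_le hk h2 hq b 0 N
  refine le_trans (card_le_card ?_) h6
  intro n hn
  rw [mem_filter] at hn ⊢
  have := mem_Icc.1 (h1 hn.1)
  exact ⟨hn.1, by omega, by omega, hn.2⟩

/-- if `log N` is large, `exp (c √(log N))` is small compared with `N` -/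
theorem exp_small {c θ : ℝ} (hc : 0 < c) (hθ : 0 < θ) : ∃ N₀ : ℕ, ∀ N : ℕ, N₀ ≤ N →
    Real.exp (c * √(Real.log N)) ≤ θ * N := by
  obtain ⟨L, hL⟩ : ∃ L : ℝ, L = max (4 * c ^ 2) (2 * Real.log (1 / θ)) := ⟨_, rfl⟩
  obtain ⟨N₀, hN₀⟩ := exists_nat_ge (Real.exp L)
  refine ⟨N₀, fun N hN => ?_⟩
  have hN1 : Real.exp L ≤ N := hN₀.trans (by exact_mod_cast hN)
  have hN0 : (0 : ℝ) < N := lt_of_lt_of_le (Real.exp_pos _) hN1
  have hlog : L ≤ Real.log N := (Real.le_log_iff_exp_le hN0).2 hN1
  have h1 : 4 * c ^ 2 ≤ Real.log N := ((le_max_left _ _).trans hL.ge).trans hlog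
  have h2 : 2 * Real.log (1 / θ) ≤ Real.log N := ((le_max_right _ _).trans hL.ge).trans hlog
  have hl0 : 0 ≤ Real.log N := le_trans (by positivity) h1
  have h3 : 2 * c ≤ √(Real.log N) := by
    apply Real.le_sqrt_of_sq_le
    calc (2 * c) ^ 2 = 4 * c ^ 2 := by ring
      _ ≤ _ := h1
  have h4 : c * √(Real.log N) ≤ Real.log N / 2 := by
    have h5 := Real.mul_self_sqrt hl0
    nlinarith [Real.sqrt_nonneg (Real.log N)]
  have h6 : Real.exp (c * √(Real.log N)) ≤ Real.exp (Real.log N / 2) := Real.exp_le_exp.2 h4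
  refine h6.trans ?_
  have h7 : Real.exp (Real.log N / 2) = N * Real.exp (-(Real.log N / 2)) := by
    rw [← Real.exp_log hN0, ← Real.exp_add, Real.exp_log hN0]
    congr 1
    ring
  rw [h7, mul_comm]
  refine mul_le_mul_of_nonneg_right ?_ hN0.le
  have h8 : -(Real.log N / 2) ≤ Real.log θ := by
    rw [one_div, Real.log_inv] at h2
    linarith
  calc Real.exp (-(Real.log N / 2)) ≤ Real.exp (Real.log θ) := Real.exp_le_exp.2 h8
    _ = θ := Real.exp_log hθ

/-- the logarithmic mass of a set up to `x` -/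
noncomputable def mass (E : Set ℕ) (x : ℕ) : ℝ :=
  ∑ N ∈ Icc 1 x, E.indicator (fun N : ℕ => (1 : ℝ) / N) N

open Classical in
theorem mass_eq (E : Set ℕ) (x : ℕ) :
    mass E x = ∑ N ∈ (Icc 1 x).filter (fun N => N ∈ E), (1 : ℝ) / N := by
  unfold mass
  rw [sum_filter]
  exact sum_congr rfl fun N _ => Set.indicator_apply _ _ _

theorem mass_mono {E E' : Set ℕ} (h : E ⊆ E') (x : ℕ) : mass E x ≤ mass E' x := by
  unfold mass
  refine sum_le_sum fun N _ => ?_
  exact Set.indicator_le_indicator_of_subset h (fun _ => by positivity) N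

theorem mass_nonneg (E : Set ℕ) (x : ℕ) : 0 ≤ mass E x :=
  sum_nonneg fun _ _ => Set.indicator_nonneg (fun _ _ => by positivity) _

theorem mass_union (E E' : Set ℕ) (x : ℕ) : mass (E ∪ E') x ≤ mass E x + mass E' x := by
  unfold mass
  rw [← sum_add_distrib]
  refine sum_le_sum fun N _ => ?_
  have h0 : (0 : ℝ) ≤ 1 / N := by positivity
  by_cases h1 : N ∈ E
  · rw [Set.indicator_of_mem (Set.mem_union_left _ h1), Set.indicator_of_mem h1]
    have : 0 ≤ E'.indicator (fun N : ℕ => (1 : ℝ) / N) N :=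
      Set.indicator_nonneg (fun _ _ => by positivity) _
    linarith
  · by_cases h2 : N ∈ E'
    · rw [Set.indicator_of_mem (Set.mem_union_right _ h2), Set.indicator_of_mem h2,
        Set.indicator_of_notMem h1, zero_add]
    · rw [Set.indicator_of_notMem h1, Set.indicator_of_notMem h2,
        Set.indicator_of_notMem (fun h => h.elim h1 h2), zero_add]

theorem mass_lt {E : Set ℕ} {M : ℕ} (hE : ∀ N ∈ E, N < M) (x : ℕ) : mass E x ≤ M := by
  classical
  rw [mass_eq]
  calc ∑ N ∈ (Icc 1 x).filter (fun N => N ∈ E), (1 : ℝ) / N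
      ≤ ∑ N ∈ (Icc 1 x).filter (fun N => N ∈ E), (1 : ℝ) := by
        refine sum_le_sum fun N hN => ?_
        rw [mem_filter, mem_Icc] at hN
        have : (1 : ℝ) ≤ N := by exact_mod_cast hN.1.1
        rw [div_le_one (by linarith)]
        exact this
    _ ≤ ∑ N ∈ range M, (1 : ℝ) := by
        refine sum_le_sum_of_subset_of_nonneg ?_ fun _ _ _ => by positivity
        intro N hN
        rw [mem_filter] at hN
        exact mem_range.2 (hE N hN.2)
    _ = M := by simp

/-- **Periodic sets, uniformly in the period.** -/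
theorem periodic {k : ℕ} (hk : 3 ≤ k) {ε : ℝ} (h0 : 0 < ε) (h1 : ε ≤ 1) :
    ∃ (c C : ℝ) (E : Set ℕ), 0 < c ∧ (∀ x : ℕ, 1 ≤ x → mass E x ≤ ε * Real.log x + C) ∧
      ∀ N : ℕ, 1 ≤ N → N ∉ E → ∀ q : ℕ, 1 ≤ q → (q : ℝ) ≤ Real.exp (c * √(Real.log N)) →
        ∀ B : Finset ℕ, B ⊆ range q →
          |(rS k {n | n % q ∈ B} N : ℝ) - B.card / q * r k N| ≤ ε * (B.card / q * r k N) := by
  obtain ⟨c, C, E, hc, hE, hreg⟩ := part_three hk (ε := ε / 4) (by positivity) (by linarith)
  obtain ⟨δ, hδ, hslow⟩ := Pool.Agent.TH106.AP3.slow hk (ε := ε / 4) (by positivity)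
  obtain ⟨θ, hθ⟩ : ∃ θ : ℝ, θ = min (ε / 4) (min (1 / 2) (δ / 2)) := ⟨_, rfl⟩
  have hθ0 : 0 < θ := by rw [hθ]; positivity
  have hθ1 : θ ≤ ε / 4 := hθ ▸ min_le_left _ _
  have hθ2 : θ ≤ 1 / 2 := hθ ▸ (min_le_right _ _).trans (min_le_left _ _)
  have hθ3 : θ ≤ δ / 2 := hθ ▸ (min_le_right _ _).trans (min_le_right _ _)
  obtain ⟨N₀, hN₀⟩ := exp_small hc hθ0
  refine ⟨c, C + (N₀ + 2 : ℕ), E ∪ {N | N < N₀ + 2}, hc, fun x hx => ?_, ?_⟩
  · have h2 := mass_union E {N | N < N₀ + 2} x
    have h3 := mass_lt (E := {N | N < N₀ + 2}) (M := N₀ + 2) (fun _ h => h) x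
    have h4 : mass E x ≤ ε / 4 * Real.log x + C := by
      classical
      rw [mass_eq]
      convert hE x hx
    have h5 : 0 ≤ Real.log x := Real.log_nonneg (by exact_mod_cast hx)
    nlinarith
  intro N hN hNE q hq hqc B hB
  have hNE1 : N ∉ E := fun h => hNE (Or.inl h)
  have hNE2 : N₀ + 2 ≤ N := by
    by_contra h
    exact hNE (Or.inr (by simpa using (by omega : N < N₀ + 2)))
  have hN0 : (0 : ℝ) < N := by exact_mod_cast hN
  have hq0 : (0 : ℝ) < q := by exact_mod_cast hq
  have hqN : (q : ℝ) ≤ θ * N := hqc.trans (hN₀ N (by omega))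
  obtain ⟨β, hβ⟩ : ∃ β : ℝ, β = B.card / q := ⟨_, rfl⟩
  have hβ0 : 0 ≤ β := by rw [hβ]; positivity
  rw [← hβ]
  have hr0 : (0 : ℝ) ≤ r k N := Nat.cast_nonneg _
  rw [abs_le]
  constructor
  · -- lower bound
    have hqN' : q ≤ N := by
      have : (q : ℝ) ≤ N := by nlinarith
      exact_mod_cast this
    obtain ⟨M, rfl⟩ : ∃ M, N = M + q := ⟨N - q, by omega⟩
    have h5 := periodic_lower (k := k) (by omega) hq hB M
    rw [← hβ] at h5
    have hM : 1 ≤ M := by
      by_contra h
      have hM0 : M = 0 := by omega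
      subst hM0
      push_cast at hqN
      nlinarith
    have h6 : (r k (M + q) : ℝ) ≤ (1 + ε / 4) * r k M := by
      refine hslow M (M + q) hM (by omega) ?_
      push_cast at hqN ⊢
      have hM0 : (0 : ℝ) < M := by exact_mod_cast hM
      -- q ≤ θ (M + q), θ ≤ 1/2: q ≤ 2 θ M ≤ δ M
      have h7 : (q : ℝ) * (1 - θ) ≤ θ * M := by linarith
      have h8 : (q : ℝ) ≤ 2 * θ * M := by nlinarith
      nlinarith
    have h9 : (1 - ε) * r k (M + q) ≤ r k M := by
      have h10 : (0 : ℝ) ≤ r k M := Nat.cast_nonneg _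
      calc (1 - ε) * r k (M + q) ≤ (1 - ε) * ((1 + ε / 4) * r k M) :=
            mul_le_mul_of_nonneg_left h6 (by linarith)
        _ = ((1 - ε) * (1 + ε / 4)) * r k M := by ring
        _ ≤ 1 * r k M := mul_le_mul_of_nonneg_right (by nlinarith) h10
        _ = r k M := one_mul _
    have h11 : β * ((1 - ε) * r k (M + q)) ≤ β * r k M := mul_le_mul_of_nonneg_left h9 hβ0
    nlinarith
  · -- upper bound
    have h5 : (rS k {n | n % q ∈ B} N : ℝ) ≤ β * ((1 + ε) * r k N) := by
      rcases Nat.eq_or_lt_of_le hq with h | h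
      · -- q = 1
        subst h
        rcases B.eq_empty_or_nonempty with hB0 | hB0
        · subst hB0
          have h6 := periodic_upper (k := k) (by omega) (le_refl 1) ∅ N
          rw [card_empty, zero_mul] at h6
          have h7 : (rS k {n | n % 1 ∈ (∅ : Finset ℕ)} N : ℝ) ≤ 0 := by exact_mod_cast h6
          refine h7.trans (by positivity)
        · have h6 : (1 : ℝ) ≤ β := by
            rw [hβ]
            simp only [Nat.cast_one, div_one]
            exact_mod_cast hB0.card_pos
          have h7 : (rS k {n | n % 1 ∈ B} N : ℝ) ≤ r k N := by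
            exact_mod_cast rS_le_r (by omega) _ N
          have h8 : (1 : ℝ) * r k N ≤ β * ((1 + ε) * r k N) := by
            refine mul_le_mul h6 ?_ hr0 hβ0
            nlinarith
          linarith
      · have h6 := periodic_upper (k := k) (by omega) hq B N
        have h6' : (rS k {n | n % q ∈ B} N : ℝ) ≤ B.card * r k (N / q + 1) := by
          exact_mod_cast h6
        obtain ⟨M, hM⟩ : ∃ M, M = N / q + 1 := ⟨_, rfl⟩
        rw [← hM] at h6'
        have hM1 : (N : ℝ) / q ≤ M := by
          have h7 := Nat.lt_succ_floor ((N : ℝ) / q)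
          rw [Nat.floor_div_eq_div] at h7
          rw [hM]
          exact h7.le
        have hM2 : (M : ℝ) ≤ N / q + 1 := by
          rw [hM]
          push_cast
          have := Nat.cast_div_le (α := ℝ) (m := N) (n := q)
          linarith
        have hM3 : M ≤ N := by
          rw [hM]
          have h8 : N / q ≤ N / 2 := Nat.div_le_div_left h (by norm_num)
          have h8' : 2 ≤ N := by omega
          generalize N / q = w at h8 ⊢
          omega
        have hMpos : 0 < M := by rw [hM]; exact Nat.succ_pos _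
        have hMpos' : (0 : ℝ) < M := by exact_mod_cast hMpos
        have h7 := (hreg N hN hNE1).1 M (by
          rw [Real.exp_neg]
          refine le_trans ?_ hM1
          rw [div_eq_mul_inv]
          refine mul_le_mul_of_nonneg_left ?_ hN0.le
          exact inv_anti₀ hq0 hqc) (by
          have h8 : (M : ℝ) ≤ N := by exact_mod_cast hM3
          have h9 : 1 ≤ Real.exp (c * √(Real.log N)) := Real.one_le_exp (by positivity)
          nlinarith)
        have hrN := r_pos hk hN
        have h8 : (r k M : ℝ) ≤ (1 + ε / 4) * (M / N * r k N) := by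
          have h9 := (abs_le.1 h7).2
          have h10 : (r k M : ℝ) / r k N / (M / N) ≤ 1 + ε / 4 := by linarith
          rw [div_le_iff₀ (by positivity), div_le_iff₀ hrN] at h10
          linarith
        have h9 : (M : ℝ) / N ≤ (1 + ε / 4) / q := by
          rw [div_le_div_iff₀ hN0 hq0]
          have h10 : (M : ℝ) * q ≤ N + q := by
            calc (M : ℝ) * q ≤ (N / q + 1) * q := mul_le_mul_of_nonneg_right hM2 hq0.le
              _ = N + q := by field_simp
          nlinarith
        calc (rS k {n | n % q ∈ B} N : ℝ) ≤ B.card * r k M := h6'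
          _ ≤ B.card * ((1 + ε / 4) * (M / N * r k N)) :=
              mul_le_mul_of_nonneg_left h8 (Nat.cast_nonneg _)
          _ ≤ B.card * ((1 + ε / 4) * ((1 + ε / 4) / q * r k N)) := by
              refine mul_le_mul_of_nonneg_left ?_ (Nat.cast_nonneg _)
              refine mul_le_mul_of_nonneg_left ?_ (by positivity)
              exact mul_le_mul_of_nonneg_right h9 hr0
          _ = β * ((1 + ε / 4) ^ 2 * r k N) := by rw [hβ]; field_simp
          _ ≤ β * ((1 + ε) * r k N) := by
              refine mul_le_mul_of_nonneg_left ?_ hβ0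
              refine mul_le_mul_of_nonneg_right ?_ hr0
              nlinarith
    nlinarith

end Pool.Agent.Q146.SF
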