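import Pool.Agent.Q146.SF.De

/-! Thin sets whose largest progression-free subsets are almost as large as possible. -/

set_option autoImplicit false

namespace Pool.Agent.Q146.SF

open Finset Filter Topology Pool.Agent.H617R3.AP

theorem geom_sum {g : ℕ → ℝ} (hg : Monotone g) (hg0 : ∀ j, 0 ≤ g j) {c : ℝ} (hc : 0 < c) {j₀ : ℕ}
    (h : ∀ j, j₀ ≤ j → (1 + c) * g j ≤ g (j + 1)) (J : ℕ) :
    ∑ j ∈ range (J + 1), g j ≤ (j₀ + 1 + 1 / c) * g J := by
  have hK : 0 < 1 / c := by positivity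
  induction J with
  | zero =>
    rw [zero_add, sum_range_one]
    have h1 := hg0 0
    have h2 : (0 : ℝ) ≤ j₀ := Nat.cast_nonneg _
    nlinarith
  | succ J ih =>
    have hJ0 := hg0 (J + 1)
    rcases lt_or_ge J j₀ with hJ | hJ
    · have h1 : ∑ j ∈ range (J + 1 + 1), g j ≤ ∑ _j ∈ range (J + 1 + 1), g (J + 1) :=
        sum_le_sum fun j hj => hg (by have := mem_range.1 hj; omega)
      rw [sum_const, card_range, nsmul_eq_mul] at h1
      refine h1.trans (mul_le_mul_of_nonneg_right ?_ hJ0)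
      have h2 : ((J + 1 + 1 : ℕ) : ℝ) ≤ (j₀ + 1 : ℕ) := by exact_mod_cast (by omega)
      push_cast at h2 ⊢
      linarith
    · rw [sum_range_succ]
      have h1 := h J hJ
      have h2 : (j₀ + 1 + 1 / c) * g J ≤ (j₀ + 1 / c) * g (J + 1) := by
        have h3 : (j₀ + 1 + 1 / c) * ((1 + c) * g J) ≤ (j₀ + 1 + 1 / c) * g (J + 1) :=
          mul_le_mul_of_nonneg_left h1 (by positivity)
        have h4 : (j₀ + 1 / c) * ((1 + c) * g J) ≤ (j₀ + 1 / c) * g (J + 1) :=
          mul_le_mul_of_nonneg_left h1 (by positivity)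
        refine le_trans ?_ h4
        have h5 : (j₀ + 1 / c) * (1 + c) = j₀ + 1 + 1 / c + j₀ * c := by field_simp; ring
        have h6 : (j₀ + 1 + 1 / c) * g J ≤ (j₀ + 1 + 1 / c + j₀ * c) * g J := by
          refine mul_le_mul_of_nonneg_right ?_ (hg0 J)
          have : (0 : ℝ) ≤ j₀ * c := by positivity
          linarith
        calc (j₀ + 1 + 1 / c) * g J ≤ (j₀ + 1 + 1 / c + j₀ * c) * g J := h6
          _ = (j₀ + 1 / c) * ((1 + c) * g J) := by rw [← h5]; ring
      have h7 : (j₀ + 1 + 1 / c) * g (J + 1) = (j₀ + 1 / c) * g (J + 1) + g (J + 1) := by ring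
      linarith

theorem cnt_eq_card (S : Set ℕ) (N : ℕ) [DecidablePred fun n => n ∈ S] :
    cnt S N = (((Icc 1 N).filter fun n => n ∈ S).card : ℝ) := by
  classical
  unfold cnt
  rw [card_filter]
  push_cast
  exact sum_congr rfl fun n _ => Set.indicator_apply _ _ _

/-- **Thin sets.** -/
theorem thin {k : ℕ} (hk : 3 ≤ k) {η : ℝ} (hη : 0 < η) : ∃ (S : Set ℕ) (C : ℝ), ∀ N : ℕ, 1 ≤ N →
    cnt S N ≤ C * r k N ∧ (1 - η) * r k N ≤ rS k S N := by
  classical
  obtain ⟨q, hq, hq1⟩ := ((Pool.Agent.TH106.AP3.tendsto_r hk).eventually_ge_atTop (4 / η)).and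
    (eventually_ge_atTop 1) |>.exists
  obtain ⟨δ, hδ, hslow⟩ := Pool.Agent.TH106.AP3.slow hk (ε := η / 4) (by positivity)
  obtain ⟨m₀, hm₀⟩ := exists_nat_ge (1 / δ)
  obtain ⟨m, hm⟩ : ∃ m : ℕ, m = m₀ + 1 := ⟨_, rfl⟩
  have hm1 : 1 ≤ m := by omega
  have hmδ : 1 ≤ δ * m := by
    rw [div_le_iff₀ hδ] at hm₀
    rw [hm]
    push_cast
    nlinarith
  have hopt : ∀ n : ℕ, ∃ A : Finset ℕ, A ⊆ Icc 1 n ∧ APFree k A ∧ A.card = r k n :=
    fun n => exists_opt (by omega) n
  choose A hA1 hA2 hA3 using hopt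
  obtain ⟨c, hc, hc1, N₀, hgrow⟩ := Pool.Agent.TH106.AP3.growth hk
  obtain ⟨S, hS⟩ : ∃ S : Set ℕ, S = {n | n ≤ m ∨ ∃ j l : ℕ, m ≤ l ∧ l < 2 * m ∧
    n ∈ A (l * 2 ^ j) ∧ l * 2 ^ j / (2 * q) < n} := ⟨_, rfl⟩
  obtain ⟨K, hK⟩ : ∃ K : ℝ, K = N₀ + 1 + 1 / c := ⟨_, rfl⟩
  have hK0 : 0 < K := by rw [hK]; positivity
  refine ⟨S, m + m * (K * (4 * q)), fun N hN => ⟨?_, ?_⟩⟩
  · -- thin
    have hr1 : (1 : ℝ) ≤ r k N := by
      have := r_pos hk hN
      exact_mod_cast this
    have hmr : (m : ℝ) ≤ m * r k N := le_mul_of_one_le_right (Nat.cast_nonneg _) hr1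
    rcases Nat.eq_zero_or_pos (2 * q * N / m) with h0 | h0
    · have h1 : 2 * q * N < m := by
        rcases (Nat.div_eq_zero_iff).1 h0 with h | h
        · omega
        · exact h
      have h2 : N ≤ m := by nlinarith
      have h3 := cnt_le S N
      have h4 : (N : ℝ) ≤ m := by exact_mod_cast h2
      have h5 : 0 ≤ (m : ℝ) * (K * (4 * q)) * r k N := by positivity
      calc cnt S N ≤ m * r k N := by linarith
        _ ≤ _ := by rw [add_mul]; linarith
    obtain ⟨J, hJ⟩ : ∃ J : ℕ, J = Nat.log 2 (2 * q * N / m) := ⟨_, rfl⟩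
    have hJ2 : m * 2 ^ J ≤ 2 * q * N := by
      have h1 := Nat.pow_log_le_self 2 h0.ne'
      rw [← hJ] at h1
      calc m * 2 ^ J ≤ m * (2 * q * N / m) := Nat.mul_le_mul_left _ h1
        _ ≤ 2 * q * N := Nat.mul_div_le _ _
    have hsub : (Icc 1 N).filter (fun n => n ∈ S) ⊆ Icc 1 m ∪
        (range (J + 1)).biUnion fun j => (Ico m (2 * m)).biUnion fun l => A (l * 2 ^ j) := by
      intro n hn
      rw [mem_filter, mem_Icc] at hn
      have hnS : n ∈ {n | n ≤ m ∨ ∃ j l : ℕ, m ≤ l ∧ l < 2 * m ∧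
        n ∈ A (l * 2 ^ j) ∧ l * 2 ^ j / (2 * q) < n} := hS ▸ hn.2
      rw [mem_union]
      rcases hnS with h | ⟨j, l, hl1, hl2, hnA, hlt⟩
      · left; rw [mem_Icc]; exact ⟨hn.1.1, h⟩
      · right
        rw [mem_biUnion]
        refine ⟨j, ?_, ?_⟩
        · rw [mem_range]
          have h1 : l * 2 ^ j < n * (2 * q) := (Nat.div_lt_iff_lt_mul (by omega)).1 hlt
          have h2 : m * 2 ^ j ≤ 2 * q * N := by
            calc m * 2 ^ j ≤ l * 2 ^ j := Nat.mul_le_mul_right _ hl1
              _ ≤ n * (2 * q) := h1.le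
              _ ≤ N * (2 * q) := Nat.mul_le_mul_right _ hn.1.2
              _ = 2 * q * N := by ring
          have h3 : 2 ^ j ≤ 2 * q * N / m := (Nat.le_div_iff_mul_le (by omega)).2 (by
            rw [mul_comm]; exact h2)
          have h4 : j ≤ J := by
            rw [hJ]
            exact (Nat.le_log_iff_pow_le (by norm_num) h0.ne').2 h3
          omega
        · rw [mem_biUnion]
          exact ⟨l, mem_Ico.2 ⟨hl1, hl2⟩, hnA⟩
    have h5 : (((Icc 1 N).filter fun n => n ∈ S).card : ℝ) ≤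
        m + ∑ j ∈ range (J + 1), (m : ℝ) * r k (2 * m * 2 ^ j) := by
      have h6 := (card_le_card hsub).trans (card_union_le _ _)
      have h7 : ((range (J + 1)).biUnion fun j => (Ico m (2 * m)).biUnion
          fun l => A (l * 2 ^ j)).card ≤ ∑ j ∈ range (J + 1), m * r k (2 * m * 2 ^ j) := by
        refine card_biUnion_le.trans (sum_le_sum fun j _ => ?_)
        refine card_biUnion_le.trans ?_
        calc ∑ l ∈ Ico m (2 * m), (A (l * 2 ^ j)).card
            ≤ ∑ _l ∈ Ico m (2 * m), r k (2 * m * 2 ^ j) := by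
              refine sum_le_sum fun l hl => ?_
              rw [mem_Ico] at hl
              rw [hA3]
              exact r_mono (Nat.mul_le_mul_right _ hl.2.le)
          _ = m * r k (2 * m * 2 ^ j) := by
              rw [sum_const, Nat.card_Ico, smul_eq_mul]
              congr 1
              omega
      have h8 : ((Icc 1 N).filter fun n => n ∈ S).card ≤
          m + ∑ j ∈ range (J + 1), m * r k (2 * m * 2 ^ j) := by
        rw [Nat.card_Icc] at h6
        omega
      exact_mod_cast h8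
    have h6 := geom_sum (g := fun j => (r k (2 * m * 2 ^ j) : ℝ))
      (by
        intro i j hij
        have h0 : 0 < 2 := by norm_num
        have h1 := r_mono (k := k) (Nat.mul_le_mul_left (2 * m) (Nat.pow_le_pow_right h0 hij))
        change (r k (2 * m * 2 ^ i) : ℝ) ≤ r k (2 * m * 2 ^ j)
        exact_mod_cast h1)
      (fun j => Nat.cast_nonneg _) hc (j₀ := N₀) (by
        intro j hj
        have h9 : N₀ ≤ 2 * m * 2 ^ j := by
          have h10 : j < 2 ^ j := Nat.lt_two_pow_self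
          nlinarith
        have h10 := hgrow (2 * m * 2 ^ j) h9
        have e : 2 * m * 2 ^ (j + 1) = 2 * (2 * m * 2 ^ j) := by ring
        rw [e]
        exact h10) J
    rw [← hK] at h6
    have h7 : (r k (2 * m * 2 ^ J) : ℝ) ≤ 4 * q * r k N := by
      have h8 : 2 * m * 2 ^ J ≤ 4 * q * N := by nlinarith
      have h9 := (r_mono (k := k) h8).trans (r_mul_le (k := k) (by omega) (4 * q) N)
      exact_mod_cast h9
    rw [cnt_eq_card]
    rw [← mul_sum] at h5
    have h8 : (m : ℝ) * ∑ j ∈ range (J + 1), (r k (2 * m * 2 ^ j) : ℝ) ≤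
        m * (K * (4 * q * r k N)) :=
      mul_le_mul_of_nonneg_left (h6.trans (mul_le_mul_of_nonneg_left h7 hK0.le))
        (Nat.cast_nonneg _)
    calc (((Icc 1 N).filter fun n => n ∈ S).card : ℝ) ≤ m + m * (K * (4 * q * r k N)) := by
          linarith
      _ ≤ m * r k N + m * (K * (4 * q * r k N)) := by linarith
      _ = _ := by ring
  · -- almost extremal
    have hr0 : (0 : ℝ) ≤ r k N := Nat.cast_nonneg _
    have hrS0 : (0 : ℝ) ≤ rS k S N := Nat.cast_nonneg _
    rcases le_or_gt 1 η with hη1 | hη1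
    · nlinarith
    rcases lt_or_ge N m with hNm | hNm
    · have h1 : (A N).card ≤ rS k S N := le_rS (hA1 N) (hA2 N) fun n hn => by
        rw [hS]
        left
        have := mem_Icc.1 (hA1 N hn)
        omega
      rw [hA3] at h1
      have h2 : (r k N : ℝ) ≤ rS k S N := by exact_mod_cast h1
      nlinarith
    obtain ⟨j, hj⟩ : ∃ j : ℕ, j = Nat.log 2 (N / m) := ⟨_, rfl⟩
    have hNm0 : N / m ≠ 0 := (Nat.div_pos hNm (by omega)).ne'
    have hj1 : 2 ^ j ≤ N / m := hj ▸ Nat.pow_log_le_self 2 hNm0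
    have hj2 : N / m < 2 ^ (j + 1) := hj ▸ Nat.lt_pow_succ_log_self (by norm_num) _
    obtain ⟨l, hl⟩ : ∃ l : ℕ, l = N / 2 ^ j := ⟨_, rfl⟩
    have hp : 0 < 2 ^ j := by positivity
    have hl1 : m ≤ l := by
      rw [hl, Nat.le_div_iff_mul_le hp]
      calc m * 2 ^ j ≤ m * (N / m) := Nat.mul_le_mul_left _ hj1
        _ ≤ N := Nat.mul_div_le _ _
    have hl2 : l < 2 * m := by
      rw [hl, Nat.div_lt_iff_lt_mul hp]
      have h1 : N < 2 ^ (j + 1) * m := (Nat.div_lt_iff_lt_mul (by omega)).1 hj2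
      calc N < 2 ^ (j + 1) * m := h1
        _ = 2 * m * 2 ^ j := by ring
    obtain ⟨n₀, hn₀⟩ : ∃ n₀ : ℕ, n₀ = l * 2 ^ j := ⟨_, rfl⟩
    have hn1 : n₀ ≤ N := by
      rw [hn₀, hl]
      exact Nat.div_mul_le_self _ _
    have hn2 : N < (l + 1) * 2 ^ j := by
      have := Nat.lt_mul_div_succ N hp
      rw [← hl] at this
      calc N < 2 ^ j * (l + 1) := this
        _ = _ := by ring
    have hn3 : 1 ≤ n₀ := by
      rw [hn₀]
      exact Nat.mul_pos (by omega) hp
    have hsl : (r k N : ℝ) ≤ (1 + η / 4) * r k n₀ := by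
      refine hslow n₀ N hn3 hn1 ?_
      have h1 : (N : ℝ) ≤ (l + 1) * 2 ^ j := by exact_mod_cast hn2.le
      have h2 : (n₀ : ℝ) = l * 2 ^ j := by rw [hn₀]; push_cast; ring
      rw [h2]
      have h3 : (1 : ℝ) ≤ δ * l := by
        have : (m : ℝ) ≤ l := by exact_mod_cast hl1
        nlinarith
      have h4 : (0 : ℝ) < 2 ^ j := by positivity
      nlinarith
    obtain ⟨d, hd⟩ : ∃ d : ℕ, d = n₀ / (2 * q) := ⟨_, rfl⟩
    have hrd : (r k d : ℝ) ≤ η / 4 * r k n₀ := by
      rcases Nat.eq_zero_or_pos d with h | h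
      · rw [h, r_zero]
        simp only [Nat.cast_zero]
        positivity
      · have h1 : r k d * r k q ≤ r k n₀ := by
          refine (Pool.Agent.TH106.AP3.prod hk h q).trans (r_mono ?_)
          calc (2 * d - 1) * q ≤ 2 * d * q := Nat.mul_le_mul_right _ (by omega)
            _ = 2 * q * d := by ring
            _ ≤ n₀ := by rw [hd]; exact Nat.mul_div_le _ _
        have h2 : (r k d : ℝ) * r k q ≤ r k n₀ := by exact_mod_cast h1
        have h3 : (r k d : ℝ) * (4 / η) ≤ r k n₀ :=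
          (mul_le_mul_of_nonneg_left hq (Nat.cast_nonneg _)).trans h2
        rw [mul_div_assoc', div_le_iff₀ hη] at h3
        linarith
    have hlow : r k n₀ ≤ rS k S N + r k d := by
      rw [← hA3 n₀]
      have h1 : (A n₀).card ≤ ((A n₀).filter fun n => d < n).card +
          ((A n₀).filter fun n => ¬ d < n).card := by
        rw [← card_union_of_disjoint (disjoint_filter_filter_not _ _ _),
          filter_union_filter_not_eq]
      have h2 : ((A n₀).filter fun n => ¬ d < n).card ≤ r k d := by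
        refine card_le_r ?_ ((hA2 n₀).mono (filter_subset _ _))
        intro n hn
        rw [mem_filter] at hn
        have := mem_Icc.1 (hA1 n₀ hn.1)
        rw [mem_Icc]
        omega
      have h3 : ((A n₀).filter fun n => d < n).card ≤ rS k S N := by
        refine le_rS ?_ ((hA2 n₀).mono (filter_subset _ _)) ?_
        · intro n hn
          have := mem_Icc.1 (hA1 n₀ (mem_filter.1 hn).1)
          rw [mem_Icc]
          omega
        · intro n hn
          rw [mem_filter] at hn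
          rw [hS]
          right
          refine ⟨j, l, hl1, hl2, ?_, ?_⟩
          · rw [← hn₀]; exact hn.1
          · rw [← hn₀, ← hd]; exact hn.2
      omega
    have hlow' : (r k n₀ : ℝ) ≤ rS k S N + r k d := by exact_mod_cast hlow
    have hr1 : (0 : ℝ) ≤ r k n₀ := Nat.cast_nonneg _
    have h1 : (1 - η / 4) * r k n₀ ≤ rS k S N := by linarith
    have h2 : (1 - η) * r k N ≤ (1 - η / 4) * r k n₀ := by
      calc (1 - η) * r k N ≤ (1 - η) * ((1 + η / 4) * r k n₀) :=
            mul_le_mul_of_nonneg_left hsl (by linarith)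
        _ = ((1 - η) * (1 + η / 4)) * r k n₀ := by ring
        _ ≤ _ := mul_le_mul_of_nonneg_right (by nlinarith) hr1
    linarith

end Pool.Agent.Q146.SF
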