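import Mathlib

/-! Divisor-closed sets have smaller share in the zeta distribution with smaller exponent. -/

set_option autoImplicit false

namespace Pool.Agent.Q146.SF

open Finset ArithmeticFunction
open scoped ArithmeticFunction.Moebius ArithmeticFunction.zeta ENNReal

/-- `n ^ (-t)` as an arithmetic function -/
noncomputable def pw (t : ℝ) : ArithmeticFunction ℝ :=
  ⟨fun n => if n = 0 then 0 else (n : ℝ) ^ (-t), by simp⟩

theorem pw_apply (t : ℝ) {n : ℕ} (hn : n ≠ 0) : pw t n = (n : ℝ) ^ (-t) := by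
  change (if n = 0 then (0 : ℝ) else (n : ℝ) ^ (-t)) = _
  rw [if_neg hn]

theorem pw_mul (t : ℝ) (a b : ℕ) : pw t a * pw t b = pw t (a * b) := by
  by_cases ha : a = 0
  · subst ha; simp
  · by_cases hb : b = 0
    · subst hb; simp
    · rw [pw_apply t ha, pw_apply t hb, pw_apply t (Nat.mul_ne_zero ha hb), Nat.cast_mul,
        Real.mul_rpow (Nat.cast_nonneg _) (Nat.cast_nonneg _)]

theorem pw_mult (t : ℝ) : (pw t).IsMultiplicative :=
  ⟨by rw [pw_apply t one_ne_zero]; simp, fun _ => (pw_mul t _ _).symm⟩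

/-- the inverse convolution factor -/
noncomputable def J (t : ℝ) : ArithmeticFunction ℝ :=
  (ζ : ArithmeticFunction ℝ) * ((μ : ArithmeticFunction ℝ).pmul (pw t))

theorem J_mult (t : ℝ) : (J t).IsMultiplicative :=
  isMultiplicative_zeta.natCast.mul (isMultiplicative_moebius.intCast.pmul (pw_mult t))

theorem J_prime_pow (t : ℝ) {p k : ℕ} (hp : p.Prime) (hk : k ≠ 0) :
    J t (p ^ k) = 1 - (p : ℝ) ^ (-t) := by
  obtain ⟨j, rfl⟩ : ∃ j, k = j + 1 := ⟨k - 1, by omega⟩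
  unfold J
  rw [coe_zeta_mul_apply, Nat.sum_divisors_prime_pow hp, sum_range_succ', sum_range_succ']
  have h1 : ∀ x ∈ range j, (((μ : ArithmeticFunction ℝ).pmul (pw t)) (p ^ (x + 1 + 1))) = 0 := by
    intro x _
    rw [pmul_apply, intCoe_apply, moebius_apply_prime_pow hp (by omega), if_neg (by omega)]
    simp
  rw [sum_eq_zero h1, zero_add, zero_add, pow_one, pow_zero, pmul_apply, pmul_apply, intCoe_apply,
    intCoe_apply, moebius_apply_prime hp, moebius_apply_one, pw_apply t hp.ne_zero,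
    pw_apply t one_ne_zero]
  simp
  ring

theorem J_nonneg {t : ℝ} (ht : 0 ≤ t) (n : ℕ) : 0 ≤ J t n := by
  by_cases hn : n = 0
  · subst hn; simp
  · rw [(J_mult t).multiplicative_factorization _ hn]
    refine prod_nonneg fun p hp => ?_
    have hp1 : p.Prime := Nat.prime_of_mem_primeFactors (by simpa using hp)
    have hp2 : n.factorization p ≠ 0 := Finsupp.mem_support_iff.1 hp
    change 0 ≤ J t (p ^ n.factorization p)
    rw [J_prime_pow t hp1 hp2]
    have h1 : (1 : ℝ) ≤ p := by exact_mod_cast hp1.one_lt.le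
    have h2 : (p : ℝ) ^ (-t) ≤ 1 := Real.rpow_le_one_of_one_le_of_nonpos h1 (by linarith)
    linarith

theorem pw_mul_mu (t : ℝ) : pw t * ((μ : ArithmeticFunction ℝ).pmul (pw t)) = 1 := by
  ext n
  rw [mul_apply]
  have h1 : ∀ x ∈ n.divisorsAntidiagonal,
      pw t x.1 * ((μ : ArithmeticFunction ℝ).pmul (pw t)) x.2 =
        pw t n * ((ζ : ArithmeticFunction ℝ) x.1 * (μ : ArithmeticFunction ℝ) x.2) := by
    intro x hx
    have h2 := Nat.mem_divisorsAntidiagonal.1 hx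
    have h3 : x.1 ≠ 0 := by
      intro h; rw [h] at h2; simp at h2; exact h2.2 h2.1.symm
    rw [pmul_apply, natCoe_apply, zeta_apply_ne h3, Nat.cast_one, one_mul]
    calc pw t x.1 * ((μ : ArithmeticFunction ℝ) x.2 * pw t x.2) =
        (pw t x.1 * pw t x.2) * (μ : ArithmeticFunction ℝ) x.2 := by ring
      _ = _ := by rw [pw_mul, h2.1]
  rw [sum_congr rfl h1, ← mul_sum, ← mul_apply, coe_zeta_mul_coe_moebius, one_apply]
  split_ifs with h
  · subst h
    rw [pw_apply t one_ne_zero]; simp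
  · simp

theorem pw_mul_J (t : ℝ) : pw t * J t = (ζ : ArithmeticFunction ℝ) := by
  unfold J
  rw [← mul_assoc, mul_comm (pw t), mul_assoc, pw_mul_mu, mul_one]

/-- the basic identity -/
theorem conv (t : ℝ) {n : ℕ} (hn : n ≠ 0) :
    ∑ x ∈ n.divisorsAntidiagonal, pw t x.1 * J t x.2 = 1 := by
  rw [← mul_apply, pw_mul_J, natCoe_apply, zeta_apply_ne hn, Nat.cast_one]

theorem pw_add (s t : ℝ) (n : ℕ) : pw (s + t) n = pw s n * pw t n := by
  by_cases hn : n = 0
  · subst hn; simp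
  · rw [pw_apply _ hn, pw_apply _ hn, pw_apply _ hn, neg_add, Real.rpow_add]
    exact_mod_cast Nat.pos_of_ne_zero hn

theorem pw_nonneg (t : ℝ) (n : ℕ) : 0 ≤ pw t n := by
  by_cases hn : n = 0
  · subst hn; simp
  · rw [pw_apply _ hn]
    positivity

theorem conv' (u t : ℝ) {n : ℕ} (hn : n ≠ 0) :
    ∑ x ∈ n.divisorsAntidiagonal, pw (u + t) x.1 * (pw u x.2 * J t x.2) = pw u n := by
  have h1 : ∀ x ∈ n.divisorsAntidiagonal, pw (u + t) x.1 * (pw u x.2 * J t x.2) =
      pw u n * (pw t x.1 * J t x.2) := by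
    intro x hx
    rw [pw_add]
    have h2 : pw u n = pw u x.1 * pw u x.2 := by
      rw [pw_mul, (Nat.mem_divisorsAntidiagonal.1 hx).1]
    rw [h2]
    ring
  rw [sum_congr rfl h1, ← mul_sum, conv t hn, mul_one]

open Classical in
/-- the sum over a set, in the extended nonnegative reals -/
noncomputable def Z (S : Set ℕ) (u : ℝ) : ℝ≥0∞ :=
  ∑' n : ℕ+, if (n : ℕ) ∈ S then ENNReal.ofReal (pw u n) else 0

open Classical in
theorem Z_pairs (S : Set ℕ) (u : ℝ) {t : ℝ} (ht : 0 ≤ t) :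
    Z S u = ∑' x : ℕ+ × ℕ+, if ((x.1 : ℕ) * (x.2 : ℕ)) ∈ S then
      ENNReal.ofReal (pw (u + t) x.1) * ENNReal.ofReal (pw u x.2 * J t x.2) else 0 := by
  rw [← sigmaAntidiagonalEquivProd.tsum_eq, ENNReal.tsum_sigma']
  unfold Z
  refine tsum_congr fun n => ?_
  have h1 : ∀ x : (n : ℕ).divisorsAntidiagonal,
      (if (((sigmaAntidiagonalEquivProd ⟨n, x⟩).1 : ℕ) * ((sigmaAntidiagonalEquivProd ⟨n, x⟩).2 : ℕ))
        ∈ S then ENNReal.ofReal (pw (u + t) (sigmaAntidiagonalEquivProd ⟨n, x⟩).1) *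
          ENNReal.ofReal (pw u (sigmaAntidiagonalEquivProd ⟨n, x⟩).2 *
            J t (sigmaAntidiagonalEquivProd ⟨n, x⟩).2) else 0) =
      if (n : ℕ) ∈ S then ENNReal.ofReal (pw (u + t) x.1.1 * (pw u x.1.2 * J t x.1.2)) else 0 := by
    intro x
    have h2 : ((sigmaAntidiagonalEquivProd ⟨n, x⟩).1 : ℕ) = x.1.1 := rfl
    have h3 : ((sigmaAntidiagonalEquivProd ⟨n, x⟩).2 : ℕ) = x.1.2 := rfl
    rw [h2, h3, (Nat.mem_divisorsAntidiagonal.1 x.2).1,
      ENNReal.ofReal_mul (p := pw (u + t) x.1.1) (q := pw u x.1.2 * J t x.1.2) (pw_nonneg _ _)]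
  rw [tsum_congr h1]
  by_cases hS : (n : ℕ) ∈ S
  · simp only [if_pos hS]
    rw [Finset.tsum_subtype (n : ℕ).divisorsAntidiagonal
      (fun x => ENNReal.ofReal (pw (u + t) x.1 * (pw u x.2 * J t x.2))),
      ← ENNReal.ofReal_sum_of_nonneg, conv' u t n.ne_zero]
    intro x _
    exact mul_nonneg (pw_nonneg _ _) (mul_nonneg (pw_nonneg _ _) (J_nonneg ht _))
  · simp only [if_neg hS, tsum_zero]

open Classical in
theorem Z_iter (S : Set ℕ) (u : ℝ) {t : ℝ} (ht : 0 ≤ t) :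
    Z S u = ∑' a : ℕ+, ∑' b : ℕ+, if ((a : ℕ) * (b : ℕ)) ∈ S then
      ENNReal.ofReal (pw (u + t) a) * ENNReal.ofReal (pw u b * J t b) else 0 := by
  rw [Z_pairs S u ht]
  exact ENNReal.tsum_prod (f := fun a b : ℕ+ => if ((a : ℕ) * (b : ℕ)) ∈ S then
      ENNReal.ofReal (pw (u + t) a) * ENNReal.ofReal (pw u b * J t b) else 0)

/-- **Monotonicity.** -/
theorem Z_mono {F : Set ℕ} (hF : ∀ n ∈ F, ∀ m, m ∣ n → m ∈ F) (u : ℝ) {t : ℝ} (ht : 0 ≤ t) :
    Z F u * Z Set.univ (u + t) ≤ Z F (u + t) * Z Set.univ u := by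
  classical
  obtain ⟨K, hK⟩ : ∃ K : ℝ≥0∞, K = ∑' b : ℕ+, ENNReal.ofReal (pw u b * J t b) := ⟨_, rfl⟩
  have h1 : Z Set.univ u = Z Set.univ (u + t) * K := by
    rw [Z_iter Set.univ u ht]
    unfold Z
    rw [← ENNReal.tsum_mul_right]
    refine tsum_congr fun a => ?_
    rw [hK, ← ENNReal.tsum_mul_left]
    refine tsum_congr fun b => ?_
    rw [if_pos (Set.mem_univ _), if_pos (Set.mem_univ _)]
  have h2 : Z F u ≤ Z F (u + t) * K := by
    rw [Z_iter F u ht]
    unfold Z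
    rw [← ENNReal.tsum_mul_right]
    refine ENNReal.tsum_le_tsum fun a => ?_
    rw [hK, ← ENNReal.tsum_mul_left]
    refine ENNReal.tsum_le_tsum fun b => ?_
    by_cases h : ((a : ℕ) * (b : ℕ)) ∈ F
    · rw [if_pos h, if_pos (hF _ h _ (dvd_mul_right _ _))]
    · rw [if_neg h]
      exact zero_le
  calc Z F u * Z Set.univ (u + t) ≤ Z F (u + t) * K * Z Set.univ (u + t) := by gcongr
    _ = Z F (u + t) * Z Set.univ u := by rw [h1]; ring

end Pool.Agent.Q146.SF
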