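import Pool.Agent.Q146.SF.Base
import Pool.Agent.Q146.SF.Cv

/-! The theorem of Davenport and Erdős for divisor-closed sets. -/

set_option autoImplicit false

namespace Pool.Agent.Q146.SF

open Finset Filter Topology
open scoped ENNReal

/-- the real sum over a set -/
noncomputable def zR (S : Set ℕ) (u : ℝ) : ℝ := ∑' n : ℕ, S.indicator (fun n => pw u n) n

theorem pw_summable {u : ℝ} (hu : 1 < u) : Summable fun n : ℕ => pw u n := by
  have h1 : (fun n : ℕ => pw u n) = fun n : ℕ => (n : ℝ) ^ (-u) := by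
    funext n
    by_cases hn : n = 0
    · subst hn
      rw [Nat.cast_zero, Real.zero_rpow (by linarith)]
      simp
    · exact pw_apply u hn
  rw [h1]
  exact Real.summable_nat_rpow.2 (by linarith)

theorem ind_summable {u : ℝ} (hu : 1 < u) (S : Set ℕ) :
    Summable fun n : ℕ => S.indicator (fun n => pw u n) n :=
  (pw_summable hu).indicator S

theorem ind_nonneg (u : ℝ) (S : Set ℕ) (n : ℕ) : 0 ≤ S.indicator (fun n => pw u n) n :=
  Set.indicator_nonneg (fun _ _ => pw_nonneg _ _) _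

theorem zR_nonneg (u : ℝ) (S : Set ℕ) : 0 ≤ zR S u := tsum_nonneg fun n => ind_nonneg u S n

theorem Z_eq {u : ℝ} (hu : 1 < u) (S : Set ℕ) : Z S u = ENNReal.ofReal (zR S u) := by
  classical
  unfold zR Z
  rw [ENNReal.ofReal_tsum_of_nonneg (fun n => ind_nonneg u S n) (ind_summable hu S),
    tsum_eq_zero_add' ENNReal.summable]
  have h0 : ENNReal.ofReal (S.indicator (fun n => pw u n) 0) = 0 := by
    have : S.indicator (fun n => pw u n) 0 = 0 := by
      rw [Set.indicator_apply]; simp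
    rw [this, ENNReal.ofReal_zero]
  rw [h0, zero_add, ← tsum_pnat_eq_tsum_succ
    (f := fun n => ENNReal.ofReal (S.indicator (fun n => pw u n) n))]
  refine tsum_congr fun n => ?_
  by_cases h : (n : ℕ) ∈ S
  · rw [if_pos h, Set.indicator_of_mem h]
  · rw [if_neg h, Set.indicator_of_notMem h, ENNReal.ofReal_zero]

theorem zR_mono_exp {F : Set ℕ} (hF : ∀ n ∈ F, ∀ m, m ∣ n → m ∈ F) {u v : ℝ} (hu : 1 < u)
    (huv : u ≤ v) : zR F u * zR Set.univ v ≤ zR F v * zR Set.univ u := by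
  have h1 := Z_mono hF u (t := v - u) (by linarith)
  have e : u + (v - u) = v := by ring
  rw [e, Z_eq hu, Z_eq hu, Z_eq (hu.trans_le huv), Z_eq (hu.trans_le huv),
    ← ENNReal.ofReal_mul (zR_nonneg _ _), ← ENNReal.ofReal_mul (zR_nonneg _ _)] at h1
  exact (ENNReal.ofReal_le_ofReal_iff (mul_nonneg (zR_nonneg _ _) (zR_nonneg _ _))).1 h1

theorem range_icc (g : ℕ → ℝ) (h0 : g 0 = 0) (M : ℕ) :
    ∑ n ∈ range (M + 1), g n = ∑ n ∈ Icc 1 M, g n := by
  induction M with
  | zero => simp [h0]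
  | succ M ih => rw [sum_range_succ, ih, sum_Icc_succ_top (by omega)]

theorem ind_zero (u : ℝ) (S : Set ℕ) : S.indicator (fun n => pw u n) 0 = 0 := by
  classical
  rw [Set.indicator_apply]; simp

theorem part_tendsto {u : ℝ} (hu : 1 < u) (S : Set ℕ) :
    Tendsto (fun M : ℕ => ∑ n ∈ Icc 1 M, S.indicator (fun n => pw u n) n) atTop (𝓝 (zR S u)) := by
  have h1 := ((ind_summable hu S).hasSum.tendsto_sum_nat).comp (tendsto_add_atTop_nat 1)
  refine h1.congr fun M => ?_
  exact range_icc _ (ind_zero u S) M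

theorem abel (g f : ℕ → ℝ) (M : ℕ) :
    ∑ n ∈ Icc 1 M, g n * f n = ∑ N ∈ Icc 1 M, (∑ n ∈ Icc 1 N, g n) * (f N - f (N + 1)) +
      (∑ n ∈ Icc 1 M, g n) * f (M + 1) := by
  induction M with
  | zero => simp
  | succ M ih =>
    rw [sum_Icc_succ_top (by omega), ih, sum_Icc_succ_top (by omega)
      (f := fun N => (∑ n ∈ Icc 1 N, g n) * (f N - f (N + 1))), sum_Icc_succ_top (by omega) g]
    ring

/-- number of elements of `S` in `[1, N]` -/
noncomputable def cnt (S : Set ℕ) (N : ℕ) : ℝ := ∑ n ∈ Icc 1 N, S.indicator (fun _ => (1 : ℝ)) n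

theorem ind_mul (S : Set ℕ) (u : ℝ) (n : ℕ) :
    S.indicator (fun n => pw u n) n = S.indicator (fun _ => (1 : ℝ)) n * pw u n := by
  by_cases h : n ∈ S
  · rw [Set.indicator_of_mem h, Set.indicator_of_mem h, one_mul]
  · rw [Set.indicator_of_notMem h, Set.indicator_of_notMem h, zero_mul]

/-- `f n - f (n + 1)` -/
noncomputable def Δ (u : ℝ) (n : ℕ) : ℝ := pw u n - pw u (n + 1)

theorem Δ_nonneg {u : ℝ} (hu : 0 < u) {n : ℕ} (hn : 1 ≤ n) : 0 ≤ Δ u n := by
  unfold Δ
  rw [pw_apply u (by omega), pw_apply u (by omega), sub_nonneg]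
  apply Real.rpow_le_rpow_of_nonpos (by exact_mod_cast hn) (by push_cast; linarith) (by linarith)

theorem part_eq (S : Set ℕ) (u : ℝ) (M : ℕ) :
    ∑ n ∈ Icc 1 M, S.indicator (fun n => pw u n) n =
      ∑ N ∈ Icc 1 M, cnt S N * Δ u N + cnt S M * pw u (M + 1) := by
  rw [sum_congr rfl fun n _ => ind_mul S u n]
  exact abel _ _ M

theorem Δ_sum (u : ℝ) (M : ℕ) : ∑ N ∈ Icc 1 M, Δ u N + pw u (M + 1) = 1 := by
  induction M with
  | zero => simp [pw_apply u one_ne_zero]
  | succ M ih =>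
    rw [sum_Icc_succ_top (by omega)]
    unfold Δ at ih ⊢
    linarith

theorem cnt_univ (N : ℕ) : cnt Set.univ N = N := by
  unfold cnt
  simp

/-- weights add up to the zeta sum -/
theorem univ_eq (u : ℝ) (M : ℕ) : ∑ n ∈ Icc 1 M, pw u n =
    ∑ N ∈ Icc 1 M, (N : ℝ) * Δ u N + M * pw u (M + 1) := by
  have h1 := part_eq Set.univ u M
  simp only [cnt_univ, Set.indicator_univ] at h1
  exact h1

theorem close {u : ℝ} (hu : 1 < u) {S : Set ℕ} {d K : ℝ} (hK : ∀ N : ℕ, |cnt S N - d * N| ≤ K) :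
    |zR S u - d * zR Set.univ u| ≤ K := by
  have h1 := (part_tendsto hu S).sub ((part_tendsto hu Set.univ).const_mul d)
  refine le_of_tendsto h1.abs (Eventually.of_forall fun M => ?_)
  rw [part_eq, part_eq]
  simp only [cnt_univ]
  have e : ∑ N ∈ Icc 1 M, cnt S N * Δ u N + cnt S M * pw u (M + 1) -
      d * (∑ N ∈ Icc 1 M, (N : ℝ) * Δ u N + M * pw u (M + 1)) =
      ∑ N ∈ Icc 1 M, (cnt S N - d * N) * Δ u N + (cnt S M - d * M) * pw u (M + 1) := by
    rw [mul_add, mul_sum]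
    have : ∑ N ∈ Icc 1 M, (cnt S N - d * N) * Δ u N =
        ∑ N ∈ Icc 1 M, cnt S N * Δ u N - ∑ N ∈ Icc 1 M, d * ((N : ℝ) * Δ u N) := by
      rw [← sum_sub_distrib]
      exact sum_congr rfl fun N _ => by ring
    rw [this]
    ring
  rw [e]
  have hK0 : 0 ≤ K := (abs_nonneg _).trans (hK 0)
  calc |∑ N ∈ Icc 1 M, (cnt S N - d * N) * Δ u N + (cnt S M - d * M) * pw u (M + 1)|
      ≤ |∑ N ∈ Icc 1 M, (cnt S N - d * N) * Δ u N| + |(cnt S M - d * M) * pw u (M + 1)| :=
        abs_add_le _ _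
    _ ≤ ∑ N ∈ Icc 1 M, K * Δ u N + K * pw u (M + 1) := by
        apply add_le_add
        · refine (abs_sum_le_sum_abs _ _).trans (sum_le_sum fun N hN => ?_)
          have hΔ := Δ_nonneg (by linarith : 0 < u) (mem_Icc.1 hN).1
          rw [abs_mul, abs_of_nonneg hΔ]
          exact mul_le_mul_of_nonneg_right (hK N) hΔ
        · rw [abs_mul, abs_of_nonneg (pw_nonneg _ _)]
          exact mul_le_mul_of_nonneg_right (hK M) (pw_nonneg _ _)
    _ = K * (∑ N ∈ Icc 1 M, Δ u N + pw u (M + 1)) := by rw [mul_add, mul_sum]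
    _ = K := by rw [Δ_sum, mul_one]

/-- `n ^ (-1 - s)` from above by a telescoping difference -/
theorem tele_up {s : ℝ} (hs : 0 < s) {n : ℕ} (hn : 1 ≤ n) :
    pw (1 + s) (n + 1) ≤ 1 / s * (pw s n - pw s (n + 1)) := by
  have hn0 : (0 : ℝ) < n := by exact_mod_cast hn
  have hm0 : (0 : ℝ) < (n : ℝ) + 1 := by linarith
  rw [pw_apply _ (by omega), pw_apply _ (by omega), pw_apply _ (by omega)]
  push_cast
  have h1 : ((n : ℝ) + 1) ^ (-(1 + s)) = ((n : ℝ) + 1) ^ (-s) * (1 / ((n : ℝ) + 1)) := by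
    rw [show -(1 + s) = -s + -1 by ring, Real.rpow_add hm0, Real.rpow_neg_one, one_div]
  have h2 : (n : ℝ) ^ (-s) = ((n : ℝ) + 1) ^ (-s) * (((n : ℝ) + 1) / n) ^ s := by
    rw [Real.div_rpow hm0.le hn0.le, Real.rpow_neg hn0.le, Real.rpow_neg hm0.le]
    have h3 : ((n : ℝ) + 1) ^ s ≠ 0 := (Real.rpow_pos_of_pos hm0 s).ne'
    field_simp
  have h3 : 1 + s * (1 / ((n : ℝ) + 1)) ≤ (((n : ℝ) + 1) / n) ^ s := by
    rw [Real.rpow_def_of_pos (by positivity)]
    have h4 : 1 / ((n : ℝ) + 1) ≤ Real.log (((n : ℝ) + 1) / n) := by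
      have h5 := Real.log_le_sub_one_of_pos (x := n / ((n : ℝ) + 1)) (by positivity)
      have h6 : Real.log (((n : ℝ) + 1) / n) = -Real.log (n / ((n : ℝ) + 1)) := by
        rw [← Real.log_inv, inv_div]
      rw [h6]
      have h7 : (n : ℝ) / (n + 1) - 1 = -(1 / ((n : ℝ) + 1)) := by field_simp; ring
      linarith
    have h8 := Real.add_one_le_exp (Real.log (((n : ℝ) + 1) / n) * s)
    nlinarith
  have h4 : 0 < ((n : ℝ) + 1) ^ (-s) := Real.rpow_pos_of_pos hm0 _
  rw [h1, h2]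
  have h5 : ((n : ℝ) + 1) ^ (-s) * (s * (1 / ((n : ℝ) + 1))) ≤
      ((n : ℝ) + 1) ^ (-s) * ((((n : ℝ) + 1) / n) ^ s - 1) :=
    mul_le_mul_of_nonneg_left (by linarith) h4.le
  calc ((n : ℝ) + 1) ^ (-s) * (1 / ((n : ℝ) + 1)) =
      1 / s * (((n : ℝ) + 1) ^ (-s) * (s * (1 / ((n : ℝ) + 1)))) := by field_simp
    _ ≤ 1 / s * (((n : ℝ) + 1) ^ (-s) * ((((n : ℝ) + 1) / n) ^ s - 1)) :=
        mul_le_mul_of_nonneg_left h5 (by positivity)
    _ = _ := by ring

/-- `n ^ (-1 - s)` from below by a telescoping difference -/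
theorem tele_low {s : ℝ} (hs : 0 < s) {n : ℕ} (hn : 1 ≤ n) :
    1 / s * (pw s n - pw s (n + 1)) ≤ pw (1 + s) n := by
  have hn0 : (0 : ℝ) < n := by exact_mod_cast hn
  have hm0 : (0 : ℝ) < (n : ℝ) + 1 := by linarith
  rw [pw_apply _ (by omega), pw_apply _ (by omega), pw_apply _ (by omega)]
  push_cast
  have h1 : (n : ℝ) ^ (-(1 + s)) = (n : ℝ) ^ (-s) * (1 / (n : ℝ)) := by
    rw [show -(1 + s) = -s + -1 by ring, Real.rpow_add hn0, Real.rpow_neg_one, one_div]
  have h2 : ((n : ℝ) + 1) ^ (-s) = (n : ℝ) ^ (-s) * (((n : ℝ) + 1) / n) ^ (-s) := by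
    rw [Real.div_rpow hm0.le hn0.le, Real.rpow_neg hn0.le, Real.rpow_neg hm0.le]
    have h3 : (n : ℝ) ^ s ≠ 0 := (Real.rpow_pos_of_pos hn0 s).ne'
    field_simp
  have h3 : 1 - s * (1 / (n : ℝ)) ≤ (((n : ℝ) + 1) / n) ^ (-s) := by
    rw [Real.rpow_def_of_pos (by positivity)]
    have h4 : Real.log (((n : ℝ) + 1) / n) ≤ 1 / (n : ℝ) := by
      have h5 := Real.log_le_sub_one_of_pos (x := ((n : ℝ) + 1) / n) (by positivity)
      have h7 : ((n : ℝ) + 1) / n - 1 = 1 / (n : ℝ) := by field_simp; ring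
      linarith
    have h8 := Real.add_one_le_exp (Real.log (((n : ℝ) + 1) / n) * (-s))
    nlinarith
  have h4 : 0 < (n : ℝ) ^ (-s) := Real.rpow_pos_of_pos hn0 _
  rw [h1, h2]
  have h5 : (n : ℝ) ^ (-s) * (1 - (((n : ℝ) + 1) / n) ^ (-s)) ≤
      (n : ℝ) ^ (-s) * (s * (1 / (n : ℝ))) :=
    mul_le_mul_of_nonneg_left (by linarith) h4.le
  calc 1 / s * ((n : ℝ) ^ (-s) - (n : ℝ) ^ (-s) * (((n : ℝ) + 1) / n) ^ (-s)) =
      1 / s * ((n : ℝ) ^ (-s) * (1 - (((n : ℝ) + 1) / n) ^ (-s))) := by ring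
    _ ≤ 1 / s * ((n : ℝ) ^ (-s) * (s * (1 / (n : ℝ)))) :=
        mul_le_mul_of_nonneg_left h5 (by positivity)
    _ = _ := by field_simp

theorem tele_sum (s : ℝ) (M : ℕ) :
    ∑ n ∈ Icc 1 M, (pw s n - pw s (n + 1)) = 1 - pw s (M + 1) := by
  have h1 := Δ_sum s M
  unfold Δ at h1
  linarith

theorem part_le {s : ℝ} (hs : 0 < s) (M : ℕ) :
    ∑ n ∈ Icc 1 (M + 1), pw (1 + s) n ≤ 1 + 1 / s * (1 - pw s (M + 1)) := by
  induction M with
  | zero => simp [pw_apply (1 + s) one_ne_zero, pw_apply s one_ne_zero]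
  | succ M ih =>
    rw [sum_Icc_succ_top (by omega)]
    have h1 := tele_up hs (n := M + 1) (by omega)
    linarith

theorem zeta_le {s : ℝ} (hs : 0 < s) : zR Set.univ (1 + s) ≤ 1 + 1 / s := by
  have h1 := (part_tendsto (u := 1 + s) (by linarith) Set.univ).comp (tendsto_add_atTop_nat 1)
  refine le_of_tendsto h1 (Eventually.of_forall fun M => ?_)
  simp only [Set.indicator_univ, Function.comp]
  refine (part_le hs M).trans ?_
  have h2 := pw_nonneg s (M + 1)
  have h3 : 0 < 1 / s := by positivity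
  nlinarith

theorem pw_tendsto {s : ℝ} (hs : 0 < s) : Tendsto (fun M : ℕ => pw s (M + 1)) atTop (𝓝 0) := by
  have h1 := (tendsto_rpow_neg_atTop hs).comp
    (tendsto_natCast_atTop_atTop.comp (tendsto_add_atTop_nat 1))
  refine h1.congr fun M => ?_
  simp only [Function.comp]
  rw [pw_apply s (Nat.succ_ne_zero M)]

theorem zeta_ge {s : ℝ} (hs : 0 < s) : 1 / s ≤ zR Set.univ (1 + s) := by
  have h1 := part_tendsto (u := 1 + s) (by linarith) Set.univ
  have h2 : Tendsto (fun M : ℕ => 1 / s * (1 - pw s (M + 1))) atTop (𝓝 (1 / s * (1 - 0))) :=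
    (tendsto_const_nhds.sub (pw_tendsto hs)).const_mul _
  rw [sub_zero, mul_one] at h2
  refine le_of_tendsto_of_tendsto' h2 h1 fun M => ?_
  simp only [Set.indicator_univ]
  rw [← tele_sum, mul_sum]
  exact sum_le_sum fun n hn => tele_low hs (mem_Icc.1 hn).1

/-- the residues `b` modulo `L` with `gcd (b, L) ∈ F` -/
noncomputable def B (F : Set ℕ) (L : ℕ) : Finset ℕ :=
  haveI := Classical.decPred fun b => Nat.gcd b L ∈ F
  (range L).filter fun b => Nat.gcd b L ∈ F

theorem mem_B {F : Set ℕ} {L b : ℕ} : b ∈ B F L ↔ b < L ∧ Nat.gcd b L ∈ F := by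
  classical
  unfold B
  rw [mem_filter, mem_range]

/-- the periodic set defined by `gcd (n, L) ∈ F` -/
def FL (F : Set ℕ) (L : ℕ) : Set ℕ := {n | Nat.gcd n L ∈ F}

theorem FL_mod {F : Set ℕ} {L : ℕ} (hL : 1 ≤ L) (n : ℕ) : n ∈ FL F L ↔ n % L ∈ B F L := by
  rw [mem_B]
  have : Nat.gcd (n % L) L = Nat.gcd n L := by
    rw [Nat.gcd_comm n L, Nat.gcd_rec L n]
  rw [this]
  exact ⟨fun h => ⟨Nat.mod_lt _ hL, h⟩, fun h => h.2⟩

theorem F_sub {F : Set ℕ} (hF : ∀ n ∈ F, ∀ m, m ∣ n → m ∈ F) (L : ℕ) : F ⊆ FL F L :=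
  fun n hn => hF n hn _ (Nat.gcd_dvd_left _ _)

theorem FL_closed {F : Set ℕ} (hF : ∀ n ∈ F, ∀ m, m ∣ n → m ∈ F) (L : ℕ) :
    ∀ n ∈ FL F L, ∀ m, m ∣ n → m ∈ FL F L :=
  fun _ hn _ hm => hF _ hn _ (Nat.gcd_dvd_gcd_of_dvd_left _ hm)

theorem cnt_mono {S T : Set ℕ} (h : S ⊆ T) (N : ℕ) : cnt S N ≤ cnt T N := by
  unfold cnt
  exact sum_le_sum fun n _ => Set.indicator_le_indicator_of_subset h (fun _ => zero_le_one) n

theorem cnt_nonneg (S : Set ℕ) (N : ℕ) : 0 ≤ cnt S N :=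
  sum_nonneg fun _ _ => Set.indicator_nonneg (fun _ _ => zero_le_one) _

theorem cnt_le (S : Set ℕ) (N : ℕ) : cnt S N ≤ N := by
  rw [← cnt_univ N]
  exact cnt_mono (Set.subset_univ _) N

/-- counting a periodic set -/
theorem cnt_per {S : Set ℕ} {L : ℕ} (hL : 1 ≤ L) {C : Finset ℕ} (hC : C ⊆ range L)
    (hS : ∀ n, n ∈ S ↔ n % L ∈ C) (N : ℕ) : |cnt S N - (C.card : ℝ) / L * N| ≤ L := by
  classical
  have hL0 : (0 : ℝ) < L := by exact_mod_cast hL
  -- one period
  have hper : ∀ N, cnt S (N + L) = cnt S N + C.card := by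
    intro N
    unfold cnt
    have h1 : Icc 1 (N + L) = Icc 1 N ∪ Ico (N + 1) (N + 1 + L) := by
      ext x; simp only [mem_Icc, mem_union, mem_Ico]; omega
    rw [h1, sum_union (by
      rw [Finset.disjoint_left]
      intro x hx hx2
      rw [mem_Icc] at hx
      rw [mem_Ico] at hx2
      omega)]
    congr 1
    have h2 := Nat.filter_Ico_card_eq_of_periodic (N + 1) L (fun n => n ∈ S) (by
      intro x
      simp only [hS, Nat.add_mod_right])
    have h3 : ∑ n ∈ Ico (N + 1) (N + 1 + L), S.indicator (fun _ => (1 : ℝ)) n =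
        (((Ico (N + 1) (N + 1 + L)).filter fun n => n ∈ S).card : ℝ) := by
      rw [card_filter]
      push_cast
      exact sum_congr rfl fun n _ => Set.indicator_apply _ _ _
    rw [h3, h2, Nat.count_eq_card_filter_range]
    congr 2
    ext b
    rw [mem_filter, mem_range]
    constructor
    · rintro ⟨hb, hb2⟩
      have := (hS b).1 hb2
      rwa [Nat.mod_eq_of_lt hb] at this
    · intro hb
      have hb2 := mem_range.1 (hC hb)
      refine ⟨hb2, (hS b).2 ?_⟩
      rwa [Nat.mod_eq_of_lt hb2]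
  have hmul : ∀ j N, cnt S (N + j * L) = cnt S N + j * C.card := by
    intro j
    induction j with
    | zero => intro N; simp
    | succ j ih =>
      intro N
      have e : N + (j + 1) * L = N + j * L + L := by ring
      rw [e, hper, ih]
      push_cast
      ring
  have h4 := hmul (N / L) (N % L)
  have h5 : N % L + N / L * L = N := by rw [mul_comm]; exact Nat.mod_add_div N L
  rw [h5] at h4
  have h6 : (N : ℝ) = (N % L : ℕ) + (N / L : ℕ) * L := by exact_mod_cast h5.symm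
  have h7 : cnt S N - (C.card : ℝ) / L * N =
      cnt S (N % L) - (C.card : ℝ) / L * (N % L : ℕ) := by
    rw [h4]
    conv_lhs => rw [h6]
    field_simp
    ring
  rw [h7]
  have h8 : (C.card : ℝ) / L ≤ 1 := by
    rw [div_le_one hL0]
    have := card_le_card hC
    rw [card_range] at this
    exact_mod_cast this
  have h9 : (0 : ℝ) ≤ (C.card : ℝ) / L := by positivity
  have h10 : ((N % L : ℕ) : ℝ) ≤ L := by exact_mod_cast (Nat.mod_lt N hL).le
  have h11 := cnt_le S (N % L)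
  have h12 := cnt_nonneg S (N % L)
  have h13 : (0 : ℝ) ≤ ((N % L : ℕ) : ℝ) := Nat.cast_nonneg _
  rw [abs_le]
  constructor <;> nlinarith

/-- the zeta share of a periodic divisor-closed set is at least its density -/
theorem per_share {F : Set ℕ} (hF : ∀ n ∈ F, ∀ m, m ∣ n → m ∈ F) {L : ℕ} (hL : 1 ≤ L) {s : ℝ}
    (hs : 0 < s) : ((B F L).card : ℝ) / L * zR Set.univ (1 + s) ≤ zR (FL F L) (1 + s) := by
  obtain ⟨d, hd⟩ : ∃ d : ℝ, d = ((B F L).card : ℝ) / L := ⟨_, rfl⟩
  have hB : B F L ⊆ range L := fun b hb => mem_range.2 (mem_B.1 hb).1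
  have hz : 0 < zR Set.univ (1 + s) := lt_of_lt_of_le (by positivity) (zeta_ge hs)
  have key : ∀ t : ℝ, 0 < t → t < s →
      d * zR Set.univ (1 + s) - L * zR Set.univ (1 + s) * t ≤ zR (FL F L) (1 + s) := by
    intro t ht hts
    have h1 := zR_mono_exp (FL_closed hF L) (u := 1 + t) (v := 1 + s) (by linarith) (by linarith)
    have h2 := close (u := 1 + t) (by linarith) (cnt_per hL hB (FL_mod hL))
    rw [← hd] at h2
    have h3 := (abs_le.1 h2).1
    have h4 := zeta_ge ht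
    have hzt : 0 < zR Set.univ (1 + t) := lt_of_lt_of_le (by positivity) h4
    have h5 : (d * zR Set.univ (1 + t) - L) * zR Set.univ (1 + s) ≤
        zR (FL F L) (1 + s) * zR Set.univ (1 + t) :=
      (mul_le_mul_of_nonneg_right (by linarith) hz.le).trans h1
    have h6 : 1 ≤ t * zR Set.univ (1 + t) := by
      rw [div_le_iff₀ ht] at h4
      linarith
    have hL0 : (0 : ℝ) ≤ L := Nat.cast_nonneg _
    have h7 : L * zR Set.univ (1 + s) ≤ L * zR Set.univ (1 + s) * (t * zR Set.univ (1 + t)) :=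
      le_mul_of_one_le_right (by positivity) h6
    have h8 : (d * zR Set.univ (1 + s) - L * zR Set.univ (1 + s) * t) * zR Set.univ (1 + t) ≤
        zR (FL F L) (1 + s) * zR Set.univ (1 + t) := by nlinarith
    exact le_of_mul_le_mul_right h8 hzt
  rw [← hd]
  have h1 : Tendsto (fun t : ℝ => d * zR Set.univ (1 + s) - L * zR Set.univ (1 + s) * t)
      (𝓝[>] 0) (𝓝 (d * zR Set.univ (1 + s) - L * zR Set.univ (1 + s) * 0)) :=
    (tendsto_const_nhds.sub (tendsto_id.const_mul _)).mono_left nhdsWithin_le_nhds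
  rw [mul_zero, sub_zero] at h1
  refine le_of_tendsto h1 ?_
  filter_upwards [Ioo_mem_nhdsGT hs] with t ht
  exact key t ht.1 ht.2

/-- the density of a divisor-closed set: the infimum of the densities of its periodic majorants -/
noncomputable def dd (F : Set ℕ) : ℝ := ⨅ L : ℕ, ((B F (L + 1)).card : ℝ) / ((L + 1 : ℕ) : ℝ)

theorem dd_bdd (F : Set ℕ) :
    BddBelow (Set.range fun L : ℕ => ((B F (L + 1)).card : ℝ) / ((L + 1 : ℕ) : ℝ)) :=
  ⟨0, by rintro _ ⟨L, rfl⟩; positivity⟩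

theorem dd_le (F : Set ℕ) {L : ℕ} (hL : 1 ≤ L) : dd F ≤ ((B F L).card : ℝ) / L := by
  obtain ⟨l, rfl⟩ : ∃ l, L = l + 1 := ⟨L - 1, by omega⟩
  exact ciInf_le (dd_bdd F) l

theorem dd_nonneg (F : Set ℕ) : 0 ≤ dd F := le_ciInf fun _ => by positivity

theorem B_card_le (F : Set ℕ) (L : ℕ) : (B F L).card ≤ L := by
  have h := card_le_card (show B F L ⊆ range L from fun b hb => mem_range.2 (mem_B.1 hb).1)
  rwa [card_range] at h

theorem dd_le_one (F : Set ℕ) : dd F ≤ 1 := by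
  have h1 := dd_le F (le_refl 1)
  have h2 : ((B F 1).card : ℝ) / (1 : ℕ) ≤ 1 := by
    rw [Nat.cast_one, div_one]
    exact_mod_cast B_card_le F 1
  exact h1.trans h2

theorem exists_L (F : Set ℕ) {η : ℝ} (hη : 0 < η) :
    ∃ L : ℕ, 1 ≤ L ∧ ((B F L).card : ℝ) / L ≤ dd F + η := by
  obtain ⟨l, hl⟩ := exists_lt_of_ciInf_lt (show
    (⨅ L : ℕ, ((B F (L + 1)).card : ℝ) / ((L + 1 : ℕ) : ℝ)) < dd F + η by
      change dd F < dd F + η; linarith)
  exact ⟨l + 1, by omega, hl.le⟩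

/-- the zeta share of a divisor-closed set is at least its density -/
theorem share {F : Set ℕ} (hF : ∀ n ∈ F, ∀ m, m ∣ n → m ∈ F) {s : ℝ} (hs : 0 < s) :
    dd F * zR Set.univ (1 + s) ≤ zR F (1 + s) := by
  have hs1 : 1 < 1 + s := by linarith
  have hz : 0 < zR Set.univ (1 + s) := lt_of_lt_of_le (by positivity) (zeta_ge hs)
  have key : ∀ M : ℕ, dd F * zR Set.univ (1 + s) ≤
      zR F (1 + s) + (zR Set.univ (1 + s) - ∑ n ∈ Icc 1 M, pw (1 + s) n) := by
    intro M
    have h1 : dd F * zR Set.univ (1 + s) ≤ zR (FL F M.factorial) (1 + s) :=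
      (mul_le_mul_of_nonneg_right (dd_le F M.factorial_pos) hz.le).trans
        (per_share hF M.factorial_pos hs)
    refine h1.trans ?_
    have t1 := part_tendsto hs1 (FL F M.factorial)
    have t2 := (part_tendsto hs1 F).add ((part_tendsto hs1 Set.univ).sub
      (tendsto_const_nhds (x := ∑ n ∈ Icc 1 M, pw (1 + s) n)))
    refine le_of_tendsto_of_tendsto t1 t2 ?_
    filter_upwards [eventually_ge_atTop M] with M' hM'
    simp only [Set.indicator_univ]
    have h3 : Icc 1 M' = Icc 1 M ∪ Ioc M M' := by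
      ext x; simp only [mem_Icc, mem_union, mem_Ioc]; omega
    have hd : Disjoint (Icc 1 M) (Ioc M M') := by
      rw [Finset.disjoint_left]
      intro x hx hx2
      rw [mem_Icc] at hx
      rw [mem_Ioc] at hx2
      omega
    rw [h3, sum_union hd, sum_union hd, sum_union hd]
    have h4 : ∑ n ∈ Icc 1 M, (FL F M.factorial).indicator (fun n => pw (1 + s) n) n =
        ∑ n ∈ Icc 1 M, F.indicator (fun n => pw (1 + s) n) n := by
      refine sum_congr rfl fun n hn => ?_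
      rw [mem_Icc] at hn
      have h5 : n ∈ FL F M.factorial ↔ n ∈ F := by
        have h6 : Nat.gcd n M.factorial = n :=
          Nat.gcd_eq_left (Nat.dvd_factorial hn.1 hn.2)
        change Nat.gcd n M.factorial ∈ F ↔ n ∈ F
        rw [h6]
      by_cases h : n ∈ F
      · rw [Set.indicator_of_mem h, Set.indicator_of_mem (h5.2 h)]
      · rw [Set.indicator_of_notMem h, Set.indicator_of_notMem (fun h' => h (h5.1 h'))]
    have h5 : ∑ n ∈ Ioc M M', (FL F M.factorial).indicator (fun n => pw (1 + s) n) n ≤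
        ∑ n ∈ Ioc M M', pw (1 + s) n :=
      sum_le_sum fun n _ => Set.indicator_le_self' (fun _ _ => pw_nonneg _ _) n
    have h6 : 0 ≤ ∑ n ∈ Ioc M M', F.indicator (fun n => pw (1 + s) n) n :=
      sum_nonneg fun n _ => ind_nonneg _ _ _
    rw [h4]
    linarith
  have t3 := part_tendsto hs1 Set.univ
  simp only [Set.indicator_univ] at t3
  have t4 : Tendsto (fun M : ℕ => zR F (1 + s) +
      (zR Set.univ (1 + s) - ∑ n ∈ Icc 1 M, pw (1 + s) n)) atTop
      (𝓝 (zR F (1 + s) + (zR Set.univ (1 + s) - zR Set.univ (1 + s)))) :=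
    tendsto_const_nhds.add (tendsto_const_nhds.sub t3)
  rw [sub_self, add_zero] at t4
  exact ge_of_tendsto' t4 key

/-- sets of logarithmic density zero, with explicit error -/
def Neg (E : Set ℕ) : Prop := ∀ ε : ℝ, 0 < ε → ∃ C : ℝ, ∀ x : ℕ, 1 ≤ x → mass E x ≤ ε * Real.log x + C

theorem cnt_upper {F : Set ℕ} (hF : ∀ n ∈ F, ∀ m, m ∣ n → m ∈ F) {η : ℝ} (hη : 0 < η) :
    ∃ L : ℕ, 1 ≤ L ∧ ∀ N : ℕ, cnt F N ≤ (dd F + η) * N + L := by
  obtain ⟨L, hL, hL2⟩ := exists_L F hη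
  refine ⟨L, hL, fun N => ?_⟩
  have hB : B F L ⊆ range L := fun b hb => mem_range.2 (mem_B.1 hb).1
  have h1 := (abs_le.1 (cnt_per hL hB (FL_mod hL) N)).2
  have h2 := cnt_mono (F_sub hF L) N
  have h3 : ((B F L).card : ℝ) / L * N ≤ (dd F + η) * N :=
    mul_le_mul_of_nonneg_right hL2 (Nat.cast_nonneg _)
  linarith

theorem weight_lower {x N : ℕ} (hx : 3 ≤ x) (hN : 1 ≤ N) (hNx : N ≤ x) :
    Real.exp (-1) / 2 * (1 / (N : ℝ)) ≤ N * Δ (1 + 1 / Real.log x) N := by
  have hx0 : (0 : ℝ) < x := by exact_mod_cast (by omega : 0 < x)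
  have hN0 : (0 : ℝ) < N := by exact_mod_cast hN
  have hN1 : (0 : ℝ) < (N : ℝ) + 1 := by linarith
  have hlog : 0 < Real.log x := Real.log_pos (by exact_mod_cast (by omega : 1 < x))
  obtain ⟨s, hs⟩ : ∃ s : ℝ, s = 1 / Real.log x := ⟨_, rfl⟩
  have hs0 : 0 < s := by rw [hs]; positivity
  rw [← hs]
  unfold Δ
  rw [pw_apply _ (by omega), pw_apply _ (by omega)]
  push_cast
  have h1 : ((N : ℝ) + 1) ^ (-(1 + s)) ≤ (N : ℝ) ^ (-(1 + s)) * (N / (N + 1)) := by
    have h2 : ((N : ℝ) + 1) ^ (-(1 + s)) = ((N : ℝ) + 1) ^ (-s) * (1 / ((N : ℝ) + 1)) := by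
      rw [show -(1 + s) = -s + -1 by ring, Real.rpow_add hN1, Real.rpow_neg_one, one_div]
    have h3 : (N : ℝ) ^ (-(1 + s)) = (N : ℝ) ^ (-s) * (1 / (N : ℝ)) := by
      rw [show -(1 + s) = -s + -1 by ring, Real.rpow_add hN0, Real.rpow_neg_one, one_div]
    rw [h2, h3]
    have h4 : ((N : ℝ) + 1) ^ (-s) ≤ (N : ℝ) ^ (-s) :=
      Real.rpow_le_rpow_of_nonpos hN0 (by linarith) (by linarith)
    calc ((N : ℝ) + 1) ^ (-s) * (1 / ((N : ℝ) + 1)) ≤ (N : ℝ) ^ (-s) * (1 / ((N : ℝ) + 1)) :=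
          mul_le_mul_of_nonneg_right h4 (by positivity)
      _ = (N : ℝ) ^ (-s) * (1 / (N : ℝ)) * (N / (N + 1)) := by field_simp
  have h5 : Real.exp (-1) ≤ (N : ℝ) ^ (-s) := by
    rw [Real.rpow_def_of_pos hN0]
    apply Real.exp_le_exp.2
    have h6 : Real.log N ≤ Real.log x := Real.log_le_log hN0 (by exact_mod_cast hNx)
    have h7 : Real.log N * s ≤ 1 := by
      rw [hs, mul_one_div, div_le_one hlog]
      exact h6
    linarith
  have h3 : (N : ℝ) ^ (-(1 + s)) = (N : ℝ) ^ (-s) * (1 / (N : ℝ)) := by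
    rw [show -(1 + s) = -s + -1 by ring, Real.rpow_add hN0, Real.rpow_neg_one, one_div]
  have h8 : (N : ℝ) ^ (-(1 + s)) * (1 / (N + 1)) ≤
      (N : ℝ) ^ (-(1 + s)) - ((N : ℝ) + 1) ^ (-(1 + s)) := by
    have h9 : (N : ℝ) ^ (-(1 + s)) * (1 / (N + 1)) =
        (N : ℝ) ^ (-(1 + s)) - (N : ℝ) ^ (-(1 + s)) * (N / (N + 1)) := by
      field_simp
      ring
    linarith
  have hNone : (1 : ℝ) ≤ N := by exact_mod_cast hN
  calc Real.exp (-1) / 2 * (1 / (N : ℝ)) = Real.exp (-1) * (1 / N) * (1 / 2) := by ring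
    _ ≤ (N : ℝ) ^ (-s) * (1 / N) * (N / (N + 1)) := by
        apply mul_le_mul
        · exact mul_le_mul_of_nonneg_right h5 (by positivity)
        · rw [div_le_div_iff₀ (by norm_num) hN1]; linarith
        · norm_num
        · positivity
    _ = N * ((N : ℝ) ^ (-(1 + s)) * (1 / (N + 1))) := by rw [h3]; field_simp
    _ ≤ _ := mul_le_mul_of_nonneg_left h8 hN0.le

/-- **Davenport and Erdős**: outside a set of logarithmic density zero the counting function of a
divisor-closed set is at least `(δ - η) N`. -/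
theorem neg_low {F : Set ℕ} (hF : ∀ n ∈ F, ∀ m, m ∣ n → m ∈ F) {η : ℝ} (hη : 0 < η) :
    Neg {N | cnt F N < (dd F - η) * N} := by
  intro ε hε
  obtain ⟨E, hE⟩ : ∃ E : Set ℕ, E = {N : ℕ | cnt F N < (dd F - η) * N} := ⟨_, rfl⟩
  rw [← hE]
  obtain ⟨c, hc⟩ : ∃ c : ℝ, c = η * (Real.exp (-1) / 2) := ⟨_, rfl⟩
  have hc0 : 0 < c := by rw [hc]; positivity
  obtain ⟨L, hL, hup⟩ := cnt_upper hF (η := ε * c) (by positivity)
  refine ⟨ε + L / c + 3, fun x hx => ?_⟩
  have hlogx : 0 ≤ Real.log x := Real.log_nonneg (by exact_mod_cast hx)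
  have hL0 : (0 : ℝ) ≤ L := Nat.cast_nonneg _
  rcases lt_or_ge x 3 with hx3 | hx3
  · have h1 : mass E x ≤ 3 := by
      have h2 : mass E x ≤ mass (Set.univ ∩ {N | N < 3}) x := by
        unfold mass
        refine sum_le_sum fun N hN => ?_
        rw [mem_Icc] at hN
        have h3 : N ∈ (Set.univ ∩ {N | N < 3} : Set ℕ) := ⟨trivial, by
          change N < 3
          omega⟩
        rw [Set.indicator_of_mem h3]
        exact Set.indicator_le_self' (fun _ _ => by positivity) N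
      exact h2.trans (mass_lt (M := 3) (fun N hN => hN.2) x)
    have h2 : 0 ≤ L / c := by positivity
    nlinarith
  -- main case
  obtain ⟨s, hs⟩ : ∃ s : ℝ, s = 1 / Real.log x := ⟨_, rfl⟩
  have hlog : 0 < Real.log x := Real.log_pos (by exact_mod_cast (by omega : 1 < x))
  have hs0 : 0 < s := by rw [hs]; positivity
  have hs1 : 1 < 1 + s := by linarith
  have key : ∀ M : ℕ, x ≤ M → c * mass E x ≤
      (dd F + ε * c) * ∑ n ∈ Icc 1 M, pw (1 + s) n + L -
        ∑ n ∈ Icc 1 M, F.indicator (fun n => pw (1 + s) n) n := by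
    intro M hM
    rw [part_eq F (1 + s) M]
    have h1 : ∑ N ∈ Icc 1 M, cnt F N * Δ (1 + s) N ≤
        ∑ N ∈ Icc 1 M, (((dd F + ε * c) * N + L) * Δ (1 + s) N -
          η * E.indicator (fun N : ℕ => (N : ℝ) * Δ (1 + s) N) N) := by
      refine sum_le_sum fun N hN => ?_
      have hΔ := Δ_nonneg (by linarith : (0 : ℝ) < 1 + s) (mem_Icc.1 hN).1
      by_cases hNE : N ∈ E
      · rw [Set.indicator_of_mem hNE]
        have h2 : cnt F N ≤ (dd F - η) * N := by
          have : N ∈ {N : ℕ | cnt F N < (dd F - η) * N} := hE ▸ hNE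
          exact le_of_lt this
        have hN0 : (0 : ℝ) ≤ N := Nat.cast_nonneg _
        have h3 : cnt F N ≤ (dd F + ε * c) * N + L - η * N := by
          have : 0 ≤ ε * c * N := by positivity
          nlinarith
        have h4 := mul_le_mul_of_nonneg_right h3 hΔ
        linarith
      · rw [Set.indicator_of_notMem hNE, mul_zero, sub_zero]
        exact mul_le_mul_of_nonneg_right (hup N) hΔ
    rw [sum_sub_distrib, ← mul_sum] at h1
    have h2 : ∑ N ∈ Icc 1 M, ((dd F + ε * c) * N + L) * Δ (1 + s) N =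
        (dd F + ε * c) * ∑ N ∈ Icc 1 M, (N : ℝ) * Δ (1 + s) N + L * ∑ N ∈ Icc 1 M, Δ (1 + s) N := by
      rw [mul_sum, mul_sum, ← sum_add_distrib]
      exact sum_congr rfl fun N _ => by ring
    have h3 := univ_eq (1 + s) M
    have h4 := Δ_sum (1 + s) M
    have h5 : cnt F M * pw (1 + s) (M + 1) ≤ ((dd F + ε * c) * M + L) * pw (1 + s) (M + 1) :=
      mul_le_mul_of_nonneg_right (hup M) (pw_nonneg _ _)
    have h6 : c * mass E x ≤
        η * ∑ N ∈ Icc 1 M, E.indicator (fun N : ℕ => (N : ℝ) * Δ (1 + s) N) N := by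
      rw [hc, mul_assoc]
      refine mul_le_mul_of_nonneg_left ?_ hη.le
      calc Real.exp (-1) / 2 * mass E x ≤
          ∑ N ∈ Icc 1 x, E.indicator (fun N : ℕ => (N : ℝ) * Δ (1 + s) N) N := by
            unfold mass
            rw [mul_sum]
            refine sum_le_sum fun N hN => ?_
            rw [mem_Icc] at hN
            by_cases hNE : N ∈ E
            · rw [Set.indicator_of_mem hNE, Set.indicator_of_mem hNE, hs]
              exact weight_lower hx3 hN.1 hN.2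
            · rw [Set.indicator_of_notMem hNE, Set.indicator_of_notMem hNE, mul_zero]
        _ ≤ _ := by
            refine sum_le_sum_of_subset_of_nonneg (Icc_subset_Icc_right hM) fun N hN _ => ?_
            refine Set.indicator_nonneg (fun N' _ => ?_) N
            by_cases h : N' = 0
            · subst h; simp
            · exact mul_nonneg (Nat.cast_nonneg _)
                (Δ_nonneg (by linarith : (0 : ℝ) < 1 + s) (by omega))
    have h7 : (dd F + ε * c) * ∑ n ∈ Icc 1 M, pw (1 + s) n =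
        (dd F + ε * c) * ∑ N ∈ Icc 1 M, (N : ℝ) * Δ (1 + s) N +
          (dd F + ε * c) * (M * pw (1 + s) (M + 1)) := by rw [h3]; ring
    have h8 : (L : ℝ) * ∑ N ∈ Icc 1 M, Δ (1 + s) N + L * pw (1 + s) (M + 1) = L := by
      rw [← mul_add, h4, mul_one]
    have h9 : ((dd F + ε * c) * M + L) * pw (1 + s) (M + 1) =
        (dd F + ε * c) * (M * pw (1 + s) (M + 1)) + L * pw (1 + s) (M + 1) := by ring
    linarith
  have t1 := part_tendsto hs1 Set.univ
  simp only [Set.indicator_univ] at t1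
  have t2 : Tendsto (fun M : ℕ => (dd F + ε * c) * ∑ n ∈ Icc 1 M, pw (1 + s) n + L -
      ∑ n ∈ Icc 1 M, F.indicator (fun n => pw (1 + s) n) n) atTop
      (𝓝 ((dd F + ε * c) * zR Set.univ (1 + s) + L - zR F (1 + s))) :=
    ((t1.const_mul _).add tendsto_const_nhds).sub (part_tendsto hs1 F)
  have h10 : c * mass E x ≤ (dd F + ε * c) * zR Set.univ (1 + s) + L - zR F (1 + s) := by
    refine ge_of_tendsto t2 ?_
    filter_upwards [eventually_ge_atTop x] with M hM
    exact key M hM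
  have h11 := share hF hs0
  have h12 := zeta_le hs0
  have h13 : 1 / s = Real.log x := by rw [hs, one_div_one_div]
  rw [h13] at h12
  have h14 : c * mass E x ≤ ε * c * (1 + Real.log x) + L := by
    have h15 : ε * c * zR Set.univ (1 + s) ≤ ε * c * (1 + Real.log x) :=
      mul_le_mul_of_nonneg_left h12 (by positivity)
    linarith
  have h16 : mass E x ≤ (ε * c * (1 + Real.log x) + L) / c := by
    rw [le_div_iff₀ hc0]
    linarith
  have h17 : (ε * c * (1 + Real.log x) + L) / c = ε * Real.log x + (ε + L / c) := by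
    field_simp
    ring
  rw [h17] at h16
  linarith

end Pool.Agent.Q146.SF
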