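import Pool.Agent.Q146.SF.De
import Pool.Agent.Q163.GC.Sqf

/-! Largest progression-free subsets of divisor-closed sets. -/

set_option autoImplicit false

namespace Pool.Agent.Q146.SF

open Finset Filter Topology Pool.Agent.H617R3.AP

theorem Neg.mono {E E' : Set ℕ} (h : Neg E') (hE : E ⊆ E') : Neg E := by
  intro ε hε
  obtain ⟨C, hC⟩ := h ε hε
  exact ⟨C, fun x hx => (mass_mono hE x).trans (hC x hx)⟩

theorem Neg.tendsto {E : Set ℕ} (h : Neg E) :
    Tendsto (fun x : ℕ => mass E x / Real.log x) atTop (𝓝 0) := by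
  have hl : Tendsto (fun x : ℕ => Real.log (x : ℝ)) atTop atTop :=
    Real.tendsto_log_atTop.comp tendsto_natCast_atTop_atTop
  rw [Metric.tendsto_nhds]
  intro ε hε
  obtain ⟨C, hC⟩ := h (ε / 2) (by positivity)
  filter_upwards [hl.eventually_gt_atTop (2 * |C| / ε), hl.eventually_gt_atTop 0,
    eventually_ge_atTop 1] with x h1 h2 h3
  rw [Real.dist_eq, sub_zero, abs_of_nonneg (div_nonneg (mass_nonneg _ _) h2.le),
    div_lt_iff₀ h2]
  have h4 := hC x h3
  rw [div_lt_iff₀ hε] at h1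
  have h5 := le_abs_self C
  linarith

/-- divisor-closed -/
def Closed (F : Set ℕ) : Prop := ∀ n ∈ F, ∀ m, m ∣ n → m ∈ F

/-- **Upper bound.** -/
theorem closed_upper {k : ℕ} (hk : 3 ≤ k) {F : Set ℕ} (hF : Closed F) {ε : ℝ} (h0 : 0 < ε)
    (h1 : ε ≤ 1) : Neg {N | (dd F + ε) * r k N < rS k F N} := by
  intro ε' hε'
  obtain ⟨ε₁, hε₁⟩ : ∃ ε₁ : ℝ, ε₁ = min ε' (ε / 4) := ⟨_, rfl⟩
  have hε₁0 : 0 < ε₁ := by rw [hε₁]; positivity
  have hε₁1 : ε₁ ≤ ε' := hε₁ ▸ min_le_left _ _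
  have hε₁2 : ε₁ ≤ ε / 4 := hε₁ ▸ min_le_right _ _
  obtain ⟨c, C, E, hc, hE, hper⟩ := periodic hk hε₁0 (by linarith)
  obtain ⟨L, hL, hL2⟩ := exists_L F (η := ε / 4) (by positivity)
  -- the window contains L
  obtain ⟨N₁, hN₁⟩ : ∃ N₁ : ℕ, ∀ N : ℕ, N₁ ≤ N → (L : ℝ) ≤ Real.exp (c * √(Real.log N)) := by
    have ht : Tendsto (fun N : ℕ => Real.exp (c * √(Real.log (N : ℝ)))) atTop atTop :=
      Real.tendsto_exp_atTop.comp ((Real.tendsto_sqrt_atTop.comp (Real.tendsto_log_atTop.comp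
        tendsto_natCast_atTop_atTop)).const_mul_atTop hc)
    exact eventually_atTop.1 (ht.eventually_ge_atTop (L : ℝ))
  refine ⟨C + (N₁ + 1 : ℕ), fun x hx => ?_⟩
  have hsub : {N : ℕ | (dd F + ε) * r k N < rS k F N} ⊆ E ∪ {N | N < N₁ + 1} := by
    intro N hN
    by_contra hcon
    have hNE : N ∉ E := fun h => hcon (Or.inl h)
    have hNN : N₁ + 1 ≤ N := by
      by_contra h
      exact hcon (Or.inr (by change N < N₁ + 1; omega))
    have hB : B F L ⊆ range L := fun b hb => mem_range.2 (mem_B.1 hb).1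
    have h2 := hper N (by omega) hNE L hL (hN₁ N (by omega)) (B F L) hB
    have h3 : rS k F N ≤ rS k {n | n % L ∈ B F L} N :=
      rS_mono (by omega) (fun n hn => (FL_mod hL n).1 (F_sub hF L hn)) (le_refl _)
    have h3' : (rS k F N : ℝ) ≤ rS k {n | n % L ∈ B F L} N := by exact_mod_cast h3
    have h4 := (abs_le.1 h2).2
    have h5 : (rS k F N : ℝ) ≤ (1 + ε₁) * (((B F L).card : ℝ) / L * r k N) := by linarith
    have hr0 : (0 : ℝ) ≤ r k N := Nat.cast_nonneg _
    have h6 : (1 + ε₁) * (((B F L).card : ℝ) / L * r k N) ≤ (dd F + ε) * r k N := by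
      have h7 : (1 + ε₁) * (((B F L).card : ℝ) / L) ≤ dd F + ε := by
        have h8 : (1 + ε₁) * (((B F L).card : ℝ) / L) ≤ (1 + ε / 4) * (dd F + ε / 4) := by
          apply mul_le_mul (by linarith) hL2 (by positivity) (by linarith)
        have h9 := dd_le_one F
        have h10 := dd_nonneg F
        nlinarith
      calc (1 + ε₁) * (((B F L).card : ℝ) / L * r k N) =
          ((1 + ε₁) * (((B F L).card : ℝ) / L)) * r k N := by ring
        _ ≤ _ := mul_le_mul_of_nonneg_right h7 hr0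
    have hN' : (dd F + ε) * r k N < rS k F N := hN
    linarith
  have h2 := (mass_mono hsub x).trans (mass_union E {N | N < N₁ + 1} x)
  have h3 := mass_lt (E := {N | N < N₁ + 1}) (M := N₁ + 1) (fun _ h => h) x
  have h4 := hE x hx
  have h5 : 0 ≤ Real.log x := Real.log_nonneg (by exact_mod_cast hx)
  have h6 : ε₁ * Real.log x ≤ ε' * Real.log x := mul_le_mul_of_nonneg_right hε₁1 h5
  linarith

open Classical in
theorem cnt_window (S : Set ℕ) {a : ℕ} (ha : 1 ≤ a) (h : ℕ) :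
    (((range h).filter fun t => a + t ∈ S).card : ℝ) = cnt S (a + h - 1) - cnt S (a - 1) := by
  induction h with
  | zero => simp
  | succ h ih =>
    rw [range_add_one, filter_insert]
    have e : a + (h + 1) - 1 = (a + h - 1) + 1 := by omega
    have e2 : a + h - 1 + 1 = a + h := by omega
    have hc : cnt S (a + h - 1 + 1) = cnt S (a + h - 1) + S.indicator (fun _ => (1 : ℝ)) (a + h) := by
      unfold cnt
      rw [sum_Icc_succ_top (by omega), e2]
    rw [e, hc]
    split_ifs with hS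
    · rw [card_insert_of_notMem (by simp), Set.indicator_of_mem hS]
      push_cast
      linarith
    · rw [Set.indicator_of_notMem hS]
      linarith

theorem cnt_diff_mono {S T : Set ℕ} (h : S ⊆ T) {M N : ℕ} (hMN : M ≤ N) :
    cnt S N - cnt S M ≤ cnt T N - cnt T M := by
  have h1 : ∀ U : Set ℕ, cnt U N - cnt U M = ∑ n ∈ Ioc M N, U.indicator (fun _ => (1 : ℝ)) n := by
    intro U
    unfold cnt
    have h3 : Icc 1 N = Icc 1 M ∪ Ioc M N := by
      ext x; simp only [mem_Icc, mem_union, mem_Ioc]; omega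
    have hd : Disjoint (Icc 1 M) (Ioc M N) := by
      rw [Finset.disjoint_left]
      intro x hx hx2
      rw [mem_Icc] at hx
      rw [mem_Ioc] at hx2
      omega
    rw [h3, sum_union hd]
    ring
  rw [h1, h1]
  exact sum_le_sum fun n _ => Set.indicator_le_indicator_of_subset h (fun _ => zero_le_one) n

/-- **Lower bound.** -/
theorem closed_lower {k : ℕ} (hk : 3 ≤ k) {F : Set ℕ} (hF : Closed F) {ε : ℝ} (h0 : 0 < ε)
    (h1 : ε ≤ 1) : Neg {N | (rS k F N : ℝ) < (dd F - ε) * r k N} := by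
  classical
  obtain ⟨δ, hδ, hslow⟩ := Pool.Agent.TH106.AP3.slow hk (ε := ε / 4) (by positivity)
  obtain ⟨θ, hθ⟩ : ∃ θ : ℝ, θ = min (1 / 2) (δ / 2) := ⟨_, rfl⟩
  have hθ0 : 0 < θ := by rw [hθ]; positivity
  have hθ1 : θ ≤ 1 / 2 := hθ ▸ min_le_left _ _
  have hθ2 : θ ≤ δ / 2 := hθ ▸ min_le_right _ _
  obtain ⟨η, hη⟩ : ∃ η : ℝ, η = θ * ε / 16 := ⟨_, rfl⟩
  have hη0 : 0 < η := by rw [hη]; positivity
  obtain ⟨L, hL, hL2⟩ := exists_L F hη0
  obtain ⟨N₁, hN₁⟩ := exists_nat_ge (max (2 / θ) (64 * (L + 1) / (θ * ε)))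
  intro ε' hε'
  obtain ⟨C, hC⟩ := neg_low hF hη0 ε' hε'
  refine ⟨C + (N₁ + 1 : ℕ), fun x hx => ?_⟩
  have hsub : {N : ℕ | (rS k F N : ℝ) < (dd F - ε) * r k N} ⊆
      {N : ℕ | cnt F N < (dd F - η) * N} ∪ {N | N < N₁ + 1} := by
    intro N hN
    by_contra hcon
    have hNE : (dd F - η) * N ≤ cnt F N := by
      by_contra h
      exact hcon (Or.inl (not_le.1 h))
    have hNN : N₁ + 1 ≤ N := by
      by_contra h
      exact hcon (Or.inr (by change N < N₁ + 1; omega))
    have hN' : (rS k F N : ℝ) < (dd F - ε) * r k N := hN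
    have hr0 : (0 : ℝ) ≤ r k N := Nat.cast_nonneg _
    have hrS0 : (0 : ℝ) ≤ rS k F N := Nat.cast_nonneg _
    have hN0 : (0 : ℝ) < N := by exact_mod_cast (by omega : 0 < N)
    have hNbig : max (2 / θ) (64 * (L + 1) / (θ * ε)) ≤ (N : ℝ) :=
      hN₁.trans (by exact_mod_cast (by omega : N₁ ≤ N))
    have hb1 : 2 / θ ≤ N := (le_max_left _ _).trans hNbig
    have hb2 : 64 * (L + 1) / (θ * ε) ≤ N := (le_max_right _ _).trans hNbig
    rw [div_le_iff₀ hθ0] at hb1
    rw [div_le_iff₀ (by positivity)] at hb2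
    -- the length of the windows
    obtain ⟨h, hh⟩ : ∃ h : ℕ, h = ⌊θ * N⌋₊ := ⟨_, rfl⟩
    have hh1 : (h : ℝ) ≤ θ * N := hh ▸ Nat.floor_le (by positivity)
    have hh2 : θ * N < h + 1 := hh ▸ Nat.lt_floor_add_one _
    have hh3 : 1 ≤ h := by
      have : (1 : ℝ) < (h : ℝ) + 1 := by nlinarith
      have : (0 : ℝ) < h := by linarith
      exact_mod_cast this
    have hhN : h < N := by
      have : (h : ℝ) < N := by nlinarith
      exact_mod_cast this
    obtain ⟨M, rfl⟩ : ∃ M, N = M + h := ⟨N - h, by omega⟩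
    have hM1 : 1 ≤ M := by omega
    have hκ : ∀ a ∈ Icc 1 M, (dd F - ε / 4) * h ≤
        (((range h).filter fun t => a + t ∈ F).card : ℝ) := by
      intro a ha
      rw [mem_Icc] at ha
      rw [cnt_window F ha.1 h]
      have hB : B F L ⊆ range L := fun b hb => mem_range.2 (mem_B.1 hb).1
      have p1 := cnt_per hL hB (FL_mod hL)
      obtain ⟨d, hd⟩ : ∃ d : ℝ, d = ((B F L).card : ℝ) / L := ⟨_, rfl⟩
      rw [← hd] at p1 hL2
      have q1 := cnt_mono (F_sub hF L) (a - 1)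
      have q2 := cnt_diff_mono (F_sub hF L) (M := a + h - 1) (N := M + h) (by omega)
      have r1 := abs_le.1 (p1 (a - 1))
      have r2 := abs_le.1 (p1 (a + h - 1))
      have r3 := abs_le.1 (p1 (M + h))
      have e1 : ((a - 1 : ℕ) : ℝ) = a - 1 := Nat.cast_pred ha.1
      have e2 : ((a + h - 1 : ℕ) : ℝ) = a + h - 1 := by
        rw [Nat.cast_sub (by omega)]; push_cast; ring
      rw [e1] at r1
      rw [e2] at r2
      push_cast at r3 hNE
      have ha1 : (1 : ℝ) ≤ a := by exact_mod_cast ha.1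
      have haM : (a : ℝ) ≤ M := by exact_mod_cast ha.2
      have hh0 : (0 : ℝ) ≤ h := Nat.cast_nonneg _
      have hd0 : 0 ≤ d := hd ▸ div_nonneg (Nat.cast_nonneg _) (Nat.cast_nonneg _)
      have key : (dd F + η) * h - 2 * η * (M + h) - 3 * L ≤
          cnt F (a + h - 1) - cnt F (a - 1) := by
        have s1 : d * (M + h) - d * (a + h - 1) ≤ (dd F + η) * (M + h) - (dd F + η) * (a + h - 1) := by
          have : d * (M + h - (a + h - 1)) ≤ (dd F + η) * (M + h - (a + h - 1)) :=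
            mul_le_mul_of_nonneg_right hL2 (by linarith)
          linarith
        have s2 : d * (a - 1) ≤ (dd F + η) * (a - 1) :=
          mul_le_mul_of_nonneg_right hL2 (by linarith)
        linarith
      have s3 : 2 * η * (M + h) ≤ ε / 8 * (h + 1) := by
        push_cast at hh2
        rw [hη]
        nlinarith
      have s4 : ε / 8 + 3 * (L : ℝ) ≤ ε / 8 * h := by
        push_cast at hh2 hb2
        -- h > θ N - 1 and θ ε N ≥ 64 (L + 1)
        have : (0 : ℝ) ≤ L := Nat.cast_nonneg _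
        nlinarith
      nlinarith
    have h2 := lower_general (k := k) (by omega) F hh3 hκ
    have h3 : (r k (M + h) : ℝ) ≤ (1 + ε / 4) * r k M := by
      refine hslow M (M + h) hM1 (by omega) ?_
      push_cast at hh1 ⊢
      have hM0 : (0 : ℝ) < M := by exact_mod_cast hM1
      have h7 : (h : ℝ) * (1 - θ) ≤ θ * M := by linarith
      have hh0 : (0 : ℝ) ≤ h := Nat.cast_nonneg _
      have h8 : (h : ℝ) ≤ 2 * θ * M := by nlinarith
      nlinarith
    have hM0 : (0 : ℝ) ≤ r k M := Nat.cast_nonneg _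
    rcases le_or_gt (dd F) ε with hcase | hcase
    · have : (dd F - ε) * r k (M + h) ≤ 0 := mul_nonpos_of_nonpos_of_nonneg (by linarith) hr0
      linarith
    · have h4 : (dd F - ε) * r k (M + h) ≤ (dd F - ε) * ((1 + ε / 4) * r k M) :=
        mul_le_mul_of_nonneg_left h3 (by linarith)
      have h5 : (dd F - ε) * ((1 + ε / 4) * r k M) ≤ (dd F - ε / 4) * r k M := by
        have h6 : (dd F - ε) * (1 + ε / 4) ≤ dd F - ε / 4 := by
          have := dd_le_one F
          nlinarith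
        calc (dd F - ε) * ((1 + ε / 4) * r k M) = ((dd F - ε) * (1 + ε / 4)) * r k M := by ring
          _ ≤ _ := mul_le_mul_of_nonneg_right h6 hM0
      linarith
  have h2 := (mass_mono hsub x).trans (mass_union _ {N | N < N₁ + 1} x)
  have h3 := mass_lt (E := {N | N < N₁ + 1}) (M := N₁ + 1) (fun _ h => h) x
  have h4 := hC x hx
  linarith

theorem harm_le {x : ℕ} (hx : 1 ≤ x) : ∑ n ∈ Icc 1 x, (1 : ℝ) / n ≤ 1 + Real.log x := by
  have h1 := harmonic_le_one_add_log x
  rw [harmonic_eq_sum_Icc] at h1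
  push_cast at h1
  simpa [one_div] using h1

theorem harm_ge (x : ℕ) : Real.log x ≤ ∑ n ∈ Icc 1 x, (1 : ℝ) / n := by
  have h1 := log_add_one_le_harmonic x
  rw [harmonic_eq_sum_Icc] at h1
  push_cast at h1
  have h2 : Real.log x ≤ Real.log (x + 1) := by
    rcases Nat.eq_zero_or_pos x with h | h
    · subst h; simp
    · apply Real.log_le_log (by exact_mod_cast h)
      linarith
  have h3 : ∑ n ∈ Icc 1 x, (1 : ℝ) / n = ∑ i ∈ Icc 1 x, ((i : ℝ))⁻¹ :=
    sum_congr rfl fun n _ => one_div _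
  rw [h3]
  linarith

theorem mass_abel (S : Set ℕ) (x : ℕ) : mass S x =
    ∑ N ∈ Icc 1 x, cnt S N * (1 / (N : ℝ) - 1 / ((N : ℝ) + 1)) + cnt S x * (1 / ((x : ℝ) + 1)) := by
  have h1 := abel (fun n => S.indicator (fun _ => (1 : ℝ)) n) (fun n => 1 / (n : ℝ)) x
  push_cast at h1
  unfold mass cnt
  rw [← h1]
  refine sum_congr rfl fun n _ => ?_
  by_cases h : n ∈ S
  · rw [Set.indicator_of_mem h, Set.indicator_of_mem h, one_mul]
  · rw [Set.indicator_of_notMem h, Set.indicator_of_notMem h, zero_mul]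

theorem diff_nonneg {N : ℕ} (hN : 1 ≤ N) : 0 ≤ 1 / (N : ℝ) - 1 / ((N : ℝ) + 1) := by
  have h1 : (0 : ℝ) < N := by exact_mod_cast hN
  rw [sub_nonneg]
  exact one_div_le_one_div_of_le h1 (by linarith)

theorem mass_upper {S : Set ℕ} {d L : ℝ} (hd : 0 ≤ d) (hL : 0 ≤ L)
    (h : ∀ N : ℕ, cnt S N ≤ d * N + L) {x : ℕ} (hx : 1 ≤ x) :
    mass S x ≤ d * Real.log x + (d + L) := by
  have h1 := mass_abel S x
  have h2 := mass_abel Set.univ x
  have h3 : mass Set.univ x = ∑ n ∈ Icc 1 x, (1 : ℝ) / n := by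
    unfold mass; simp
  have h4 := harm_le hx
  have h5 : ∑ N ∈ Icc 1 x, cnt S N * (1 / (N : ℝ) - 1 / ((N : ℝ) + 1)) ≤
      ∑ N ∈ Icc 1 x, (d * (cnt Set.univ N * (1 / (N : ℝ) - 1 / ((N : ℝ) + 1))) +
        L * (1 / (N : ℝ) - 1 / ((N : ℝ) + 1))) := by
    refine sum_le_sum fun N hN => ?_
    have h6 := mul_le_mul_of_nonneg_right (h N) (diff_nonneg (mem_Icc.1 hN).1)
    rw [cnt_univ]
    linarith
  rw [sum_add_distrib, ← mul_sum, ← mul_sum] at h5
  have h6 : ∑ N ∈ Icc 1 x, (1 / (N : ℝ) - 1 / ((N : ℝ) + 1)) + 1 / ((x : ℝ) + 1) = 1 := by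
    clear h1 h2 h3 h4 h5 hx
    induction x with
    | zero => simp
    | succ x ih =>
      rw [sum_Icc_succ_top (by omega)]
      push_cast
      linarith
  have h7 : cnt S x * (1 / ((x : ℝ) + 1)) ≤ d * (cnt Set.univ x * (1 / ((x : ℝ) + 1))) +
      L * (1 / ((x : ℝ) + 1)) := by
    have h8 := mul_le_mul_of_nonneg_right (h x) (by positivity : (0 : ℝ) ≤ 1 / ((x : ℝ) + 1))
    rw [cnt_univ]
    linarith
  have h6' : L * (∑ N ∈ Icc 1 x, (1 / (N : ℝ) - 1 / ((N : ℝ) + 1)) + 1 / ((x : ℝ) + 1)) = L := by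
    rw [h6, mul_one]
  have h9 : mass S x ≤ d * mass Set.univ x + L := by
    rw [h1, h2]
    linarith
  rw [h3] at h9
  nlinarith

theorem mass_lower {S E : Set ℕ} {d e : ℝ} (hd : 0 ≤ d)
    (h : ∀ N : ℕ, N ∉ E → (d - e) * N ≤ cnt S N) (x : ℕ) (he : 0 ≤ e) (hed : e ≤ d) :
    (d - e) * (Real.log x - 1) - d * mass E x ≤ mass S x := by
  have h1 := mass_abel S x
  have h2 := mass_abel Set.univ x
  have h3 : mass Set.univ x = ∑ n ∈ Icc 1 x, (1 : ℝ) / n := by
    unfold mass; simp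
  have h4 := harm_ge x
  have h5 : ∑ N ∈ Icc 1 x, ((d - e) * (cnt Set.univ N * (1 / (N : ℝ) - 1 / ((N : ℝ) + 1))) -
      d * E.indicator (fun N : ℕ => (1 : ℝ) / N) N) ≤
      ∑ N ∈ Icc 1 x, cnt S N * (1 / (N : ℝ) - 1 / ((N : ℝ) + 1)) := by
    refine sum_le_sum fun N hN => ?_
    have hN1 := (mem_Icc.1 hN).1
    have hΔ := diff_nonneg hN1
    by_cases hE : N ∈ E
    · rw [Set.indicator_of_mem hE, cnt_univ]
      have h6 : (N : ℝ) * (1 / (N : ℝ) - 1 / ((N : ℝ) + 1)) ≤ 1 / N := by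
        have h7 : (0 : ℝ) < N := by exact_mod_cast hN1
        have e1 : (N : ℝ) * (1 / (N : ℝ) - 1 / ((N : ℝ) + 1)) = 1 / ((N : ℝ) + 1) := by
          field_simp
          ring
        rw [e1]
        exact one_div_le_one_div_of_le h7 (by linarith)
      have h7 : 0 ≤ cnt S N * (1 / (N : ℝ) - 1 / ((N : ℝ) + 1)) := mul_nonneg (cnt_nonneg _ _) hΔ
      have h8 : (d - e) * ((N : ℝ) * (1 / (N : ℝ) - 1 / ((N : ℝ) + 1))) ≤ d * (1 / N) := by
        have h9 : (0 : ℝ) ≤ (N : ℝ) * (1 / (N : ℝ) - 1 / ((N : ℝ) + 1)) :=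
          mul_nonneg (Nat.cast_nonneg _) hΔ
        calc (d - e) * ((N : ℝ) * (1 / (N : ℝ) - 1 / ((N : ℝ) + 1))) ≤
            d * ((N : ℝ) * (1 / (N : ℝ) - 1 / ((N : ℝ) + 1))) :=
              mul_le_mul_of_nonneg_right (by linarith) h9
          _ ≤ _ := mul_le_mul_of_nonneg_left h6 hd
      linarith
    · rw [Set.indicator_of_notMem hE, cnt_univ, mul_zero, sub_zero]
      have h6 := mul_le_mul_of_nonneg_right (h N hE) hΔ
      linarith
  rw [sum_sub_distrib, ← mul_sum, ← mul_sum] at h5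
  have h7 : 0 ≤ cnt S x * (1 / ((x : ℝ) + 1)) := mul_nonneg (cnt_nonneg _ _) (by positivity)
  have h8 : cnt Set.univ x * (1 / ((x : ℝ) + 1)) ≤ 1 := by
    rw [cnt_univ, mul_one_div, div_le_one (by positivity)]
    linarith
  have h9 : Real.log x - 1 ≤
      ∑ N ∈ Icc 1 x, cnt Set.univ N * (1 / (N : ℝ) - 1 / ((N : ℝ) + 1)) := by
    rw [h3] at h2
    linarith
  have h10 := mul_le_mul_of_nonneg_left h9 (by linarith : 0 ≤ d - e)
  have h11 : mass E x = ∑ N ∈ Icc 1 x, E.indicator (fun N : ℕ => (1 : ℝ) / N) N := rfl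
  rw [h1, h11]
  linarith

/-- the logarithmic density exists and equals `dd F` -/
theorem log_density {F : Set ℕ} (hF : Closed F) :
    Tendsto (fun x : ℕ => mass F x / Real.log x) atTop (𝓝 (dd F)) := by
  have hl : Tendsto (fun x : ℕ => Real.log (x : ℝ)) atTop atTop :=
    Real.tendsto_log_atTop.comp tendsto_natCast_atTop_atTop
  have hd0 := dd_nonneg F
  have hd1 := dd_le_one F
  rw [Metric.tendsto_nhds]
  intro ε hε
  obtain ⟨L, hL, hup⟩ := cnt_upper hF (η := ε / 4) (by positivity)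
  obtain ⟨C, hC⟩ : ∃ C : ℝ, C = dd F + ε / 4 + L := ⟨_, rfl⟩
  have hup2 : ∀ x : ℕ, 1 ≤ x → mass F x ≤ (dd F + ε / 4) * Real.log x + C := by
    intro x hx
    rw [hC]
    exact mass_upper (by positivity) (Nat.cast_nonneg _) hup hx
  have hlow2 : ∃ C' : ℝ, ∀ x : ℕ, 1 ≤ x → (dd F - ε / 2) * Real.log x - C' ≤ mass F x := by
    rcases le_or_gt (dd F) (ε / 4) with hcase | hcase
    · refine ⟨0, fun x hx => ?_⟩
      have h5 : 0 ≤ Real.log x := Real.log_nonneg (by exact_mod_cast hx)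
      have := mass_nonneg F x
      nlinarith
    · obtain ⟨C₂, hC₂⟩ := neg_low hF (η := ε / 4) (by positivity) (ε / 4) (by positivity)
      refine ⟨1 + |C₂|, fun x hx => ?_⟩
      have h1 := mass_lower (S := F) (E := {N : ℕ | cnt F N < (dd F - ε / 4) * N}) (d := dd F)
        (e := ε / 4) hd0 (fun N hN => not_lt.1 hN) x (by positivity) hcase.le
      have h2 := hC₂ x hx
      have h5 : 0 ≤ Real.log x := Real.log_nonneg (by exact_mod_cast hx)
      have h6 : dd F * mass {N : ℕ | cnt F N < (dd F - ε / 4) * N} x ≤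
          ε / 4 * Real.log x + |C₂| := by
        have h7 := mass_nonneg {N : ℕ | cnt F N < (dd F - ε / 4) * N} x
        have h8 : dd F * mass {N : ℕ | cnt F N < (dd F - ε / 4) * N} x ≤
            mass {N : ℕ | cnt F N < (dd F - ε / 4) * N} x := mul_le_of_le_one_left h7 hd1
        have h9 := le_abs_self C₂
        linarith
      nlinarith
  obtain ⟨C', hC'⟩ := hlow2
  filter_upwards [hl.eventually_gt_atTop (4 * (|C| + |C'|) / ε), hl.eventually_gt_atTop 0,
    eventually_ge_atTop 1] with x h1 h2 h3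
  have h4 := hup2 x h3
  have h5 := hC' x h3
  rw [div_lt_iff₀ hε] at h1
  have h6 := le_abs_self C
  have h7 := le_abs_self C'
  have h8 := abs_nonneg C
  have h9 := abs_nonneg C'
  rw [Real.dist_eq, abs_lt]
  constructor
  · rw [lt_sub_iff_add_lt, lt_div_iff₀ h2]
    nlinarith
  · rw [sub_lt_iff_lt_add, div_lt_iff₀ h2]
    nlinarith

/-- both bounds together -/
theorem closed_main {k : ℕ} (hk : 3 ≤ k) {F : Set ℕ} (hF : Closed F) {ε : ℝ} (h0 : 0 < ε) :
    Neg {N | ε * r k N < |(rS k F N : ℝ) - dd F * r k N|} := by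
  obtain ⟨ε₁, hε₁⟩ : ∃ ε₁ : ℝ, ε₁ = min ε 1 := ⟨_, rfl⟩
  have hε₁0 : 0 < ε₁ := by rw [hε₁]; positivity
  have hε₁1 : ε₁ ≤ ε := hε₁ ▸ min_le_left _ _
  have hε₁2 : ε₁ ≤ 1 := hε₁ ▸ min_le_right _ _
  intro ε' hε'
  obtain ⟨C₁, h1⟩ := closed_upper hk hF hε₁0 hε₁2 (ε' / 2) (by positivity)
  obtain ⟨C₂, h2⟩ := closed_lower hk hF hε₁0 hε₁2 (ε' / 2) (by positivity)
  refine ⟨C₁ + C₂, fun x hx => ?_⟩
  have hsub : {N | ε * r k N < |(rS k F N : ℝ) - dd F * r k N|} ⊆
      {N | (dd F + ε₁) * r k N < rS k F N} ∪ {N | (rS k F N : ℝ) < (dd F - ε₁) * r k N} := by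
    intro N hN
    have hN' : ε * r k N < |(rS k F N : ℝ) - dd F * r k N| := hN
    have hr0 : (0 : ℝ) ≤ r k N := Nat.cast_nonneg _
    have h3 : ε₁ * r k N ≤ ε * r k N := mul_le_mul_of_nonneg_right hε₁1 hr0
    rcases lt_abs.1 hN' with h | h
    · left
      change (dd F + ε₁) * r k N < rS k F N
      linarith
    · right
      change (rS k F N : ℝ) < (dd F - ε₁) * r k N
      linarith
  have h3 := (mass_mono hsub x).trans (mass_union _ _ x)
  have h4 := h1 x hx
  have h5 := h2 x hx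
  linarith

/-- squarefree numbers -/
theorem dd_squarefree : dd {n | Squarefree n} = 6 / Real.pi ^ 2 := by
  classical
  have hF : Closed {n | Squarefree n} := fun n hn m hm => Squarefree.squarefree_of_dvd hm hn
  have hcnt : ∀ N : ℕ, cnt {n | Squarefree n} N = Q163.GC.QQ N := by
    intro N
    unfold cnt Q163.GC.QQ
    rw [range_eq_Ico, sum_Ico_add' (fun n => Y293.SF.mu n ^ 2) 0 N 1, zero_add]
    have : Ico 1 (N + 1) = Icc 1 N := by
      ext n
      simp only [mem_Ico, mem_Icc]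
      omega
    rw [this]
    refine sum_congr rfl fun n _ => ?_
    rw [Q163.GC.mu_sq n, Set.indicator_apply]
    rfl
  obtain ⟨d, hd⟩ : ∃ d : ℝ, d = 6 / Real.pi ^ 2 := ⟨_, rfl⟩
  rw [← hd]
  have hb : ∀ N : ℕ, |cnt {n | Squarefree n} N - d * N| ≤ 5 * √(N : ℝ) := by
    intro N
    rw [hcnt, hd]
    exact Q163.GC.QQ_bound N
  apply le_antisymm
  · -- dd ≤ d
    refine le_of_forall_pos_le_add fun η hη => ?_
    by_contra hcon
    push Not at hcon
    -- every large N is in the exceptional set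
    obtain ⟨C, hC⟩ := neg_low hF (η := η / 2) (by positivity) (1 / 2) (by norm_num)
    obtain ⟨N₁, hN₁⟩ := exists_nat_ge (max 1 ((10 / η) ^ 2 + 1))
    have hall : ∀ N : ℕ, N₁ ≤ N → N ∈ {N : ℕ | cnt {n | Squarefree n} N <
        (dd {n | Squarefree n} - η / 2) * N} := by
      intro N hN
      have hN1 : (10 / η) ^ 2 + 1 ≤ (N : ℝ) :=
        ((le_max_right _ _).trans hN₁).trans (by exact_mod_cast hN)
      have h3 := (abs_le.1 (hb N)).2
      have h4 : 10 / η < √(N : ℝ) := by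
        apply Real.lt_sqrt_of_sq_lt
        linarith
      rw [div_lt_iff₀ hη] at h4
      have h5 : √(N : ℝ) * √(N : ℝ) = N := Real.mul_self_sqrt (Nat.cast_nonneg _)
      have h6 : 0 < √(N : ℝ) := by
        have : 0 < 10 / η := by positivity
        nlinarith
      change cnt {n | Squarefree n} N < (dd {n | Squarefree n} - η / 2) * N
      have h7 : 5 * √(N : ℝ) < η / 2 * N := by nlinarith
      have hNpos : (0 : ℝ) < N := by nlinarith
      nlinarith
    have hl : Tendsto (fun x : ℕ => Real.log (x : ℝ)) atTop atTop :=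
      Real.tendsto_log_atTop.comp tendsto_natCast_atTop_atTop
    obtain ⟨x, hx⟩ := ((hl.eventually_gt_atTop (2 * (|C| + N₁ + 1))).and
      (eventually_ge_atTop 1)).exists
    have h8 := hC x hx.2
    have h9 : mass Set.univ x ≤ mass {N : ℕ | cnt {n | Squarefree n} N <
        (dd {n | Squarefree n} - η / 2) * N} x + mass {N | N < N₁} x := by
      refine le_trans (mass_mono ?_ x) (mass_union _ _ x)
      intro N _
      rcases lt_or_ge N N₁ with h | h
      · exact Or.inr h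
      · exact Or.inl (hall N h)
    have h10 := mass_lt (E := {N | N < N₁}) (M := N₁) (fun _ h => h) x
    have h11 : mass Set.univ x = ∑ n ∈ Icc 1 x, (1 : ℝ) / n := by
      unfold mass; simp
    have h12 := harm_ge x
    have h13 := le_abs_self C
    linarith [hx.1]
  · -- d ≤ dd
    refine le_of_forall_pos_le_add fun η hη => ?_
    obtain ⟨L, hL, hup⟩ := cnt_upper hF (η := η / 2) (by positivity)
    by_contra hcon
    push Not at hcon
    obtain ⟨N, hN⟩ := exists_nat_ge (max 1 ((20 / η) ^ 2 + 4 * L / η + 1))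
    have hN1 : (1 : ℝ) ≤ N := (le_max_left _ _).trans hN
    have hN2 : (20 / η) ^ 2 + 4 * L / η + 1 ≤ (N : ℝ) := (le_max_right _ _).trans hN
    have h1 := hup N
    have h2 := (abs_le.1 (hb N)).1
    have hL0 : (0 : ℝ) ≤ L := Nat.cast_nonneg _
    have h3 : (20 / η) ≤ √(N : ℝ) := by
      apply Real.le_sqrt_of_sq_le
      have : 0 ≤ 4 * (L : ℝ) / η := by positivity
      linarith
    rw [div_le_iff₀ hη] at h3
    have h5 : √(N : ℝ) * √(N : ℝ) = N := Real.mul_self_sqrt (Nat.cast_nonneg _)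
    have h6 : 0 ≤ √(N : ℝ) := Real.sqrt_nonneg _
    have h7 : 5 * √(N : ℝ) ≤ η / 4 * N := by nlinarith
    have h8 : (L : ℝ) < η / 4 * N := by
      have h9 : 4 * (L : ℝ) / η < N := by
        have : 0 ≤ (20 / η) ^ 2 := by positivity
        linarith
      rw [div_lt_iff₀ hη] at h9
      linarith
    nlinarith

end Pool.Agent.Q146.SF
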