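import Pool.Agent.Q146.SF.Main
import Pool.Agent.Cov.PNT
import Pool.Agent.H305R2.MertensE

/-! Largest progression-free subsets of the primes. -/

set_option autoImplicit false

namespace Pool.Agent.Q146.SF

open Finset Filter Topology Pool.Agent.H617R3.AP

/-- the primes -/
def PP : Set ℕ := {p | p.Prime}

theorem theta_err {η : ℝ} (hη : 0 < η) : ∃ C : ℝ, ∀ n : ℕ, |Chebyshev.theta n - n| ≤ η * n + C := by
  have h1 := Pool.Agent.Cov.PNT.theta_div_tendsto.comp (tendsto_natCast_atTop_atTop (R := ℝ))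
  rw [Metric.tendsto_nhds] at h1
  obtain ⟨n₀, hn₀⟩ := eventually_atTop.1 ((h1 η hη).and (eventually_ge_atTop 1))
  obtain ⟨C, hC⟩ : ∃ C : ℝ, C = ∑ n ∈ range n₀, |Chebyshev.theta n - n| := ⟨_, rfl⟩
  have hC0 : 0 ≤ C := hC ▸ sum_nonneg fun _ _ => abs_nonneg _
  refine ⟨C, fun n => ?_⟩
  rcases lt_or_ge n n₀ with h | h
  · have h2 : |Chebyshev.theta n - n| ≤ C := by
      rw [hC]
      exact single_le_sum (f := fun n : ℕ => |Chebyshev.theta n - n|) (fun _ _ => abs_nonneg _)
        (mem_range.2 h)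
    have : 0 ≤ η * n := by positivity
    linarith
  · obtain ⟨h2, h3⟩ := hn₀ n h
    have hn : (0 : ℝ) < n := by exact_mod_cast h3
    simp only [Function.comp] at h2
    rw [Real.dist_eq] at h2
    have h4 : Chebyshev.theta n - n = (Chebyshev.theta n / n - 1) * n := by field_simp
    rw [h4, abs_mul, abs_of_pos hn]
    nlinarith

theorem theta_diff {m n N : ℕ} (hmn : m ≤ n) (hnN : n ≤ N) :
    Chebyshev.theta n - Chebyshev.theta m ≤ (cnt PP n - cnt PP m) * Real.log N := by
  classical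
  have hlog : 0 ≤ Real.log N := Real.log_natCast_nonneg N
  induction n, hmn using Nat.le_induction with
  | base => simp
  | succ n hmn ih =>
    have h1 := ih (by omega)
    have hc : cnt PP (n + 1) = cnt PP n + PP.indicator (fun _ => (1 : ℝ)) (n + 1) := by
      unfold cnt
      rw [sum_Icc_succ_top (by omega)]
    have ht : Chebyshev.theta ((n + 1 : ℕ) : ℝ) ≤ Chebyshev.theta (n : ℝ) +
        PP.indicator (fun _ => (1 : ℝ)) (n + 1) * Real.log N := by
      rw [Chebyshev.theta, Chebyshev.theta, Nat.floor_natCast, Nat.floor_natCast,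
        sum_filter, sum_filter, sum_Ioc_succ_top (Nat.zero_le n)]
      by_cases hp : (n + 1).Prime
      · rw [if_pos hp, Set.indicator_of_mem (show n + 1 ∈ PP from hp), one_mul]
        have : Real.log ((n + 1 : ℕ) : ℝ) ≤ Real.log N :=
          Real.log_le_log (by positivity) (by exact_mod_cast hnN)
        linarith
      · rw [if_neg hp, Set.indicator_of_notMem (show n + 1 ∉ PP from hp), zero_mul]
    rw [hc]
    linarith

/-- **Lower bound for the primes.** -/
theorem primes_lower {k : ℕ} (hk : 3 ≤ k) {ε : ℝ} (h0 : 0 < ε) :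
    ∃ N₀ : ℕ, ∀ N : ℕ, N₀ ≤ N → (1 - ε) * (r k N / Real.log N) ≤ rS k PP N := by
  classical
  rcases le_or_gt 1 ε with hε1 | hε1
  · refine ⟨0, fun N _ => ?_⟩
    have h1 : (0 : ℝ) ≤ r k N / Real.log N :=
      div_nonneg (Nat.cast_nonneg _) (Real.log_natCast_nonneg N)
    have h2 : (0 : ℝ) ≤ rS k PP N := Nat.cast_nonneg _
    nlinarith
  obtain ⟨δ, hδ, hslow⟩ := Pool.Agent.TH106.AP3.slow hk (ε := ε / 4) (by positivity)
  obtain ⟨θ, hθ⟩ : ∃ θ : ℝ, θ = min (1 / 2) (δ / 2) := ⟨_, rfl⟩
  have hθ0 : 0 < θ := by rw [hθ]; positivity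
  have hθ1 : θ ≤ 1 / 2 := hθ ▸ min_le_left _ _
  have hθ2 : θ ≤ δ / 2 := hθ ▸ min_le_right _ _
  obtain ⟨η, hη⟩ : ∃ η : ℝ, η = θ * ε / 32 := ⟨_, rfl⟩
  have hη0 : 0 < η := by rw [hη]; positivity
  obtain ⟨C, hC⟩ := theta_err hη0
  have hC0 : 0 ≤ C := by
    have := (abs_nonneg _).trans (hC 0)
    simpa using this
  obtain ⟨N₁, hN₁⟩ := exists_nat_ge (max (2 / θ) (64 * (C + 1) / (θ * ε)))
  refine ⟨N₁ + 2, fun N hN => ?_⟩
  have hN0 : (0 : ℝ) < N := by exact_mod_cast (by omega : 0 < N)
  have hNbig : max (2 / θ) (64 * (C + 1) / (θ * ε)) ≤ (N : ℝ) :=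
    hN₁.trans (by exact_mod_cast (by omega : N₁ ≤ N))
  have hb1 : 2 / θ ≤ N := (le_max_left _ _).trans hNbig
  have hb2 : 64 * (C + 1) / (θ * ε) ≤ N := (le_max_right _ _).trans hNbig
  rw [div_le_iff₀ hθ0] at hb1
  rw [div_le_iff₀ (by positivity)] at hb2
  have hlog : 0 < Real.log N := Real.log_pos (by exact_mod_cast (by omega : 1 < N))
  obtain ⟨h, hh⟩ : ∃ h : ℕ, h = ⌊θ * N⌋₊ := ⟨_, rfl⟩
  have hh1 : (h : ℝ) ≤ θ * N := hh ▸ Nat.floor_le (by positivity)
  have hh2 : θ * N < h + 1 := hh ▸ Nat.lt_floor_add_one _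
  have hh3 : 1 ≤ h := by
    have : (1 : ℝ) < (h : ℝ) + 1 := by nlinarith
    have : (0 : ℝ) < h := by linarith
    exact_mod_cast this
  have hhN : h < N := by
    have : (h : ℝ) < N := by nlinarith
    exact_mod_cast this
  obtain ⟨M, rfl⟩ : ∃ M, N = M + h := ⟨N - h, by omega⟩
  have hM1 : 1 ≤ M := by omega
  obtain ⟨Λ, hΛ⟩ : ∃ Λ : ℝ, Λ = Real.log ((M + h : ℕ) : ℝ) := ⟨_, rfl⟩
  rw [← hΛ] at hlog ⊢
  have hκ : ∀ a ∈ Icc 1 M, (1 - ε / 2) / Λ * h ≤
      (((range h).filter fun t => a + t ∈ PP).card : ℝ) := by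
    intro a ha
    rw [mem_Icc] at ha
    rw [cnt_window PP ha.1 h]
    have t1 := theta_diff (m := a - 1) (n := a + h - 1) (N := M + h) (by omega) (by omega)
    rw [← hΛ] at t1
    have r1 := abs_le.1 (hC (a - 1))
    have r2 := abs_le.1 (hC (a + h - 1))
    have e1 : ((a - 1 : ℕ) : ℝ) = a - 1 := Nat.cast_pred ha.1
    have e2 : ((a + h - 1 : ℕ) : ℝ) = a + h - 1 := by
      rw [Nat.cast_sub (by omega)]; push_cast; ring
    rw [e1, e2] at t1
    rw [e1] at r1
    rw [e2] at r2
    have ha1 : (1 : ℝ) ≤ a := by exact_mod_cast ha.1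
    have haM : (a : ℝ) ≤ M := by exact_mod_cast ha.2
    have hh0 : (0 : ℝ) ≤ h := Nat.cast_nonneg _
    have key : (1 - ε / 2) * h ≤ (cnt PP (a + h - 1) - cnt PP (a - 1)) * Λ := by
      refine le_trans ?_ t1
      have s1 : (h : ℝ) - η * (a + h - 1) - η * (a - 1) - 2 * C ≤
          Chebyshev.theta (a + h - 1) - Chebyshev.theta (a - 1) := by linarith [r1.2, r2.1]
      refine le_trans ?_ s1
      push_cast at hh2 hb2 hh1
      have s2 : η * (a + h - 1) + η * (a - 1) ≤ 2 * (η * (M + h)) := by nlinarith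
      have s3 : 2 * (η * (M + h)) ≤ ε / 16 * (h + 1) := by
        rw [hη]
        nlinarith
      have s4 : ε / 16 + 2 * C ≤ ε / 8 * h := by nlinarith
      nlinarith
    rw [div_mul_eq_mul_div, div_le_iff₀ hlog]
    exact key
  have h2 := lower_general (k := k) (by omega) PP hh3 hκ
  have h3 : (r k (M + h) : ℝ) ≤ (1 + ε / 4) * r k M := by
    refine hslow M (M + h) hM1 (by omega) ?_
    push_cast at hh1 ⊢
    have hM0 : (0 : ℝ) < M := by exact_mod_cast hM1
    have h7 : (h : ℝ) * (1 - θ) ≤ θ * M := by linarith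
    have hh0 : (0 : ℝ) ≤ h := Nat.cast_nonneg _
    have h8 : (h : ℝ) ≤ 2 * θ * M := by nlinarith
    nlinarith
  refine le_trans ?_ h2
  have hM0 : (0 : ℝ) ≤ r k M := Nat.cast_nonneg _
  have h4 : (1 - ε) * r k (M + h) ≤ (1 - ε / 2) * r k M := by
    calc (1 - ε) * r k (M + h) ≤ (1 - ε) * ((1 + ε / 4) * r k M) :=
          mul_le_mul_of_nonneg_left h3 (by linarith)
      _ = ((1 - ε) * (1 + ε / 4)) * r k M := by ring
      _ ≤ _ := mul_le_mul_of_nonneg_right (by nlinarith) hM0
  calc (1 - ε) * (r k (M + h) / Λ) = (1 - ε) * r k (M + h) / Λ := by ring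
    _ ≤ (1 - ε / 2) * r k M / Λ := div_le_div_of_nonneg_right h4 hlog.le
    _ = (1 - ε / 2) / Λ * r k M := by ring

/-- the share of the residues prime to the primorial -/
theorem totient_primorial (y : ℕ) : ((primorial y).totient : ℝ) / primorial y =
    (∏ p ∈ (Icc 1 y).filter Nat.Prime, (1 - (p : ℝ)⁻¹)⁻¹)⁻¹ := by
  have h1 := Nat.totient_eq_mul_prod_factors (primorial y)
  have h2 : ((primorial y).totient : ℝ) =
      primorial y * ∏ p ∈ (primorial y).primeFactors, (1 - (p : ℝ)⁻¹) := by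
    have h3 : (((primorial y).totient : ℚ) : ℝ) =
      ((primorial y * ∏ p ∈ (primorial y).primeFactors, (1 - (p : ℚ)⁻¹) : ℚ) : ℝ) := by
      rw [h1]
    push_cast at h3
    exact h3
  have h3 : (primorial y).primeFactors = (Icc 1 y).filter Nat.Prime := by
    unfold primorial
    rw [Nat.primeFactors_prod (fun p hp => (mem_filter.1 hp).2)]
    ext p
    simp only [mem_filter, mem_range, mem_Icc]
    constructor
    · rintro ⟨h4, h5⟩
      exact ⟨⟨h5.one_lt.le, by omega⟩, h5⟩
    · rintro ⟨h4, h5⟩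
      exact ⟨by omega, h5⟩
  have hq : (0 : ℝ) < primorial y := by exact_mod_cast primorial_pos y
  rw [h2, h3, ← prod_inv_distrib, mul_div_cancel_left₀ _ hq.ne']
  exact prod_congr rfl fun p _ => (inv_inv _).symm

/-- primes are at most `y` or prime to the primorial -/
theorem primes_periodic {k : ℕ} (hk : 1 ≤ k) (y N : ℕ) :
    rS k PP N ≤ rS k {n | n % primorial y ∈
      (range (primorial y)).filter fun b => (primorial y).Coprime b} N + y := by
  classical
  obtain ⟨A, h1, h2, h3, h4⟩ := exists_rS hk PP N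
  rw [← h4]
  have h5 : A = A.filter (fun n => y < n) ∪ A.filter (fun n => ¬ y < n) :=
    (filter_union_filter_not_eq _ _).symm
  have h6 : A.card ≤ (A.filter fun n => y < n).card + (A.filter fun n => ¬ y < n).card := by
    conv_lhs => rw [h5]
    exact card_union_le _ _
  have h7 : (A.filter fun n => ¬ y < n).card ≤ y := by
    have h8 : A.filter (fun n => ¬ y < n) ⊆ Icc 1 y := by
      intro n hn
      rw [mem_filter] at hn
      have := mem_Icc.1 (h1 hn.1)
      rw [mem_Icc]
      omega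
    have := card_le_card h8
    simpa using this
  have h8 : (A.filter fun n => y < n).card ≤ rS k {n | n % primorial y ∈
      (range (primorial y)).filter fun b => (primorial y).Coprime b} N := by
    refine le_rS ((filter_subset _ _).trans h1) (h2.mono (filter_subset _ _)) fun n hn => ?_
    rw [mem_filter] at hn
    have hp : n.Prime := h3 n hn.1
    change n % primorial y ∈ (range (primorial y)).filter fun b => (primorial y).Coprime b
    rw [mem_filter, mem_range]
    refine ⟨Nat.mod_lt _ (primorial_pos y), ?_⟩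
    rw [Nat.coprime_iff_gcd_eq_one, Nat.gcd_comm, ← Nat.gcd_rec]
    change Nat.Coprime (primorial y) n
    rw [Nat.coprime_comm, hp.coprime_iff_not_dvd]
    intro hd
    unfold primorial at hd
    rw [Prime.dvd_finset_prod_iff hp.prime] at hd
    obtain ⟨p, hp2, hd2⟩ := hd
    rw [mem_filter, mem_range] at hp2
    have := (Nat.prime_dvd_prime_iff_eq hp hp2.2).1 hd2
    omega
  omega

/-- **Upper bound for the primes.** -/
theorem primes_upper {k : ℕ} (hk : 3 ≤ k) {ε : ℝ} (h0 : 0 < ε) :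
    Neg {N | (2 * Real.exp (-Real.eulerMascheroniConstant) + ε) *
      (r k N / Real.log (Real.log N)) < rS k PP N} := by
  classical
  intro ε' hε'
  obtain ⟨G, hG⟩ : ∃ G : ℝ, G = Real.exp (-Real.eulerMascheroniConstant) := ⟨_, rfl⟩
  have hG0 : 0 < G := hG ▸ Real.exp_pos _
  have hG1 : G ≤ 1 := by
    rw [hG]
    apply Real.exp_le_one_iff.2
    have := Real.one_half_lt_eulerMascheroniConstant
    linarith
  rw [← hG]
  obtain ⟨τ, hτ⟩ : ∃ τ : ℝ, τ = min ε' (min (ε / 32) (1 / 4)) := ⟨_, rfl⟩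
  have hτ0 : 0 < τ := by rw [hτ]; positivity
  have hτ1 : τ ≤ ε' := hτ ▸ min_le_left _ _
  have hτ2 : τ ≤ ε / 32 := hτ ▸ (min_le_right _ _).trans (min_le_left _ _)
  have hτ3 : τ ≤ 1 / 4 := hτ ▸ (min_le_right _ _).trans (min_le_right _ _)
  obtain ⟨c, C, E, hc, hE, hper⟩ := periodic hk hτ0 (by linarith)
  have hl4 : 0 < Real.log 4 := Real.log_pos (by norm_num)
  obtain ⟨w, hw⟩ : ∃ w : ℕ → ℝ, w = fun N : ℕ => c * √(Real.log N) / Real.log 4 := ⟨_, rfl⟩
  have hLt : Tendsto (fun N : ℕ => Real.log (N : ℝ)) atTop atTop :=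
    Real.tendsto_log_atTop.comp tendsto_natCast_atTop_atTop
  have hSt : Tendsto (fun N : ℕ => √(Real.log (N : ℝ))) atTop atTop :=
    Real.tendsto_sqrt_atTop.comp hLt
  have hwt : Tendsto w atTop atTop := by
    rw [hw]
    exact (hSt.const_mul_atTop hc).atTop_div_const hl4
  have hyt : Tendsto (fun N => ⌊w N⌋₊) atTop atTop := tendsto_nat_floor_atTop.comp hwt
  -- Mertens
  have hM := (Pool.Agent.H305R2.mertens_three.comp hyt)
  have hev1 : ∀ᶠ N : ℕ in atTop, ((primorial ⌊w N⌋₊).totient : ℝ) / primorial ⌊w N⌋₊ ≤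
      (1 + τ) * G / Real.log ⌊w N⌋₊ := by
    have hlt : (1 / ((1 + τ) * G)) < Real.exp Real.eulerMascheroniConstant := by
      rw [hG, Real.exp_neg, div_lt_iff₀ (by positivity)]
      have := Real.exp_pos Real.eulerMascheroniConstant
      field_simp
      linarith
    filter_upwards [hM.eventually_const_lt hlt, hyt.eventually_ge_atTop 2] with N hN hN2
    simp only [Function.comp] at hN
    rw [totient_primorial]
    have hlog : 0 < Real.log ((⌊w N⌋₊ : ℕ) : ℝ) :=
      Real.log_pos (by exact_mod_cast (by omega : 1 < ⌊w N⌋₊))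
    rw [lt_div_iff₀ hlog] at hN
    have hpos : 0 < 1 / ((1 + τ) * G) * Real.log ((⌊w N⌋₊ : ℕ) : ℝ) := by positivity
    rw [show (1 + τ) * G / Real.log ((⌊w N⌋₊ : ℕ) : ℝ) =
      (1 / ((1 + τ) * G) * Real.log ((⌊w N⌋₊ : ℕ) : ℝ))⁻¹ by field_simp]
    exact inv_anti₀ hpos hN.le
  have hev2 : ∀ᶠ N : ℕ in atTop, (1 - τ) * (1 / 2 * Real.log (Real.log N)) ≤
      Real.log ⌊w N⌋₊ := by
    have hLLt : Tendsto (fun N : ℕ => Real.log (Real.log (N : ℝ))) atTop atTop :=
      Real.tendsto_log_atTop.comp hLt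
    filter_upwards [hwt.eventually_ge_atTop 2, hLt.eventually_gt_atTop 1,
      hLLt.eventually_ge_atTop (-2 * Real.log (c / (2 * Real.log 4)) / τ)] with N h1 h2 h3
    have h4 : w N / 2 ≤ (⌊w N⌋₊ : ℝ) := by
      have := Nat.lt_floor_add_one (w N)
      linarith
    have h5 : Real.log (w N / 2) ≤ Real.log ⌊w N⌋₊ := Real.log_le_log (by linarith) h4
    have h6 : Real.log (w N / 2) = Real.log (c / (2 * Real.log 4)) +
        1 / 2 * Real.log (Real.log N) := by
      have h7 : w N / 2 = (c / (2 * Real.log 4)) * √(Real.log N) := by rw [hw]; field_simp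
      rw [h7, Real.log_mul (by positivity) (Real.sqrt_pos.2 (by linarith)).ne',
        Real.log_sqrt (by linarith)]
      ring
    rw [div_le_iff₀ hτ0] at h3
    linarith
  -- few small primes
  have hev3 : ∀ᶠ N : ℕ in atTop, (⌊w N⌋₊ : ℝ) * Real.log (Real.log N) ≤ ε / 2 * r k N := by
    obtain ⟨N₀, hN₀⟩ := exp_small (c := 5) (θ := 1) (by norm_num) (by norm_num)
    have ht := (Real.tendsto_pow_mul_exp_neg_atTop_nhds_zero 3).comp hSt
    have hpos : 0 < ε * Real.log 4 / (2 * c) := by positivity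
    filter_upwards [ht.eventually_lt_const hpos, eventually_ge_atTop N₀,
      hLt.eventually_gt_atTop 1, eventually_ge_atTop 1] with N h1 h2 h3 h4
    simp only [Function.comp] at h1
    obtain ⟨S, hS⟩ : ∃ S : ℝ, S = √(Real.log (N : ℝ)) := ⟨_, rfl⟩
    rw [← hS] at h1
    have hS0 : 0 < S := hS ▸ Real.sqrt_pos.2 (by linarith)
    have hSS : S * S = Real.log N := hS ▸ Real.mul_self_sqrt (by linarith)
    have h5 : Real.exp S ≤ r k N := by
      have h6 := behrend hk N
      have h7 := hN₀ N h2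
      rw [← hS] at h6 h7
      rw [one_mul] at h7
      calc Real.exp S = Real.exp (5 * S) * Real.exp (-4 * S) := by
            rw [← Real.exp_add]; congr 1; ring
        _ ≤ N * Real.exp (-4 * S) := mul_le_mul_of_nonneg_right h7 (Real.exp_pos _).le
        _ ≤ r k N := h6
    have h6 : (⌊w N⌋₊ : ℝ) ≤ c * S / Real.log 4 := by
      have h7 : 0 ≤ w N := by rw [hw]; positivity
      have h8 := Nat.floor_le h7
      have h9 : w N = c * S / Real.log 4 := by rw [hw, hS]
      rw [h9] at h8 ⊢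
      exact h8
    have h7 : Real.log (Real.log N) ≤ S * S := by
      rw [hSS]
      have := Real.log_le_sub_one_of_pos (x := Real.log N) (by linarith)
      linarith
    have h8 : 0 ≤ Real.log (Real.log N) := Real.log_nonneg h3.le
    have h9 : S ^ 3 < ε * Real.log 4 / (2 * c) * Real.exp S := by
      have := mul_lt_mul_of_pos_right h1 (Real.exp_pos S)
      rwa [mul_assoc, ← Real.exp_add, neg_add_cancel, Real.exp_zero, mul_one] at this
    calc (⌊w N⌋₊ : ℝ) * Real.log (Real.log N) ≤ (c * S / Real.log 4) * (S * S) :=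
          mul_le_mul h6 h7 h8 (by positivity)
      _ = c / Real.log 4 * S ^ 3 := by ring
      _ ≤ c / Real.log 4 * (ε * Real.log 4 / (2 * c) * Real.exp S) :=
          mul_le_mul_of_nonneg_left h9.le (by positivity)
      _ = ε / 2 * Real.exp S := by field_simp
      _ ≤ ε / 2 * r k N := mul_le_mul_of_nonneg_left h5 (by positivity)
  obtain ⟨N₁, hN₁⟩ := eventually_atTop.1 (hev1.and (hev2.and (hev3.and
    ((hLt.eventually_gt_atTop (Real.exp 1)).and (hyt.eventually_ge_atTop 2)))))
  refine ⟨C + (N₁ + 1 : ℕ), fun x hx => ?_⟩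
  have hsub : {N : ℕ | (2 * G + ε) * (r k N / Real.log (Real.log N)) < rS k PP N} ⊆
      E ∪ {N | N < N₁ + 1} := by
    intro N hN
    by_contra hcon
    have hNE : N ∉ E := fun h => hcon (Or.inl h)
    have hNN : N₁ + 1 ≤ N := by
      by_contra h
      exact hcon (Or.inr (by change N < N₁ + 1; omega))
    obtain ⟨e1, e2, e3, e4, e5⟩ := hN₁ N (by omega)
    have hN' : (2 * G + ε) * (r k N / Real.log (Real.log N)) < rS k PP N := hN
    obtain ⟨y, hy⟩ : ∃ y : ℕ, y = ⌊w N⌋₊ := ⟨_, rfl⟩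
    rw [← hy] at e1 e2 e3 e5
    obtain ⟨q, hq⟩ : ∃ q : ℕ, q = primorial y := ⟨_, rfl⟩
    have hq1 : 1 ≤ q := hq ▸ primorial_pos y
    have hqc : (q : ℝ) ≤ Real.exp (c * √(Real.log N)) := by
      have h1 : (q : ℝ) ≤ 4 ^ y := by rw [hq]; exact_mod_cast primorial_le_four_pow y
      refine h1.trans ?_
      have h2 : (4 : ℝ) ^ y = Real.exp (y * Real.log 4) := by
        rw [mul_comm, Real.exp_mul, Real.exp_log (by norm_num), Real.rpow_natCast]
      rw [h2]
      apply Real.exp_le_exp.2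
      have h3 : (y : ℝ) ≤ w N := by
        rw [hy]
        exact Nat.floor_le (by rw [hw]; positivity)
      have h4 : w N * Real.log 4 = c * √(Real.log N) := by rw [hw]; field_simp
      rw [← h4]
      exact mul_le_mul_of_nonneg_right h3 hl4.le
    have h1 := hper N (by omega) hNE q hq1 hqc
      ((range q).filter fun b => q.Coprime b) (filter_subset _ _)
    have h2 : (((range q).filter fun b => q.Coprime b).card : ℝ) = q.totient := by
      rw [Nat.totient_eq_card_coprime]
    rw [h2] at h1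
    have h3 := primes_periodic (k := k) (by omega) y N
    rw [← hq] at h3
    have h3' : (rS k PP N : ℝ) ≤ rS k {n | n % q ∈
      (range q).filter fun b => q.Coprime b} N + y := by exact_mod_cast h3
    have h4 := (abs_le.1 h1).2
    rw [← hq] at e1
    have hr0 : (0 : ℝ) ≤ r k N := Nat.cast_nonneg _
    have hLL : 0 < Real.log (Real.log N) := by
      apply Real.log_pos
      have := Real.add_one_le_exp (1 : ℝ)
      linarith
    have hly : 0 < Real.log (y : ℝ) := Real.log_pos (by exact_mod_cast (by omega : 1 < y))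
    have h5 : (rS k PP N : ℝ) ≤ (1 + τ) * ((1 + τ) * G / Real.log y * r k N) + y := by
      have h6 : (q.totient : ℝ) / q * r k N ≤ (1 + τ) * G / Real.log y * r k N :=
        mul_le_mul_of_nonneg_right e1 hr0
      nlinarith
    have h6 : (1 + τ) * ((1 + τ) * G / Real.log y * r k N) ≤
        (2 * G + ε / 2) * (r k N / Real.log (Real.log N)) := by
      have h7 : (1 + τ) * ((1 + τ) * G / Real.log y * r k N) ≤
          (1 + τ) * ((1 + τ) * G / ((1 - τ) * (1 / 2 * Real.log (Real.log N))) * r k N) := by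
        refine mul_le_mul_of_nonneg_left ?_ (by linarith)
        refine mul_le_mul_of_nonneg_right ?_ hr0
        refine div_le_div_of_nonneg_left (by positivity) ?_ e2
        have : 0 < 1 - τ := by linarith
        positivity
      refine h7.trans ?_
      have h1τ : 0 < 1 - τ := by linarith
      have h8 : (1 + τ) * ((1 + τ) * G / ((1 - τ) * (1 / 2 * Real.log (Real.log N))) * r k N) =
          ((1 + τ) * (1 + τ) / (1 - τ)) * (2 * G) * (r k N / Real.log (Real.log N)) := by
        field_simp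
      rw [h8]
      refine mul_le_mul_of_nonneg_right ?_ (by positivity)
      have h9 : (1 + τ) * (1 + τ) / (1 - τ) ≤ 1 + 8 * τ := by
        rw [div_le_iff₀ h1τ]
        nlinarith
      calc (1 + τ) * (1 + τ) / (1 - τ) * (2 * G) ≤ (1 + 8 * τ) * (2 * G) :=
            mul_le_mul_of_nonneg_right h9 (by positivity)
        _ = 2 * G + 16 * τ * G := by ring
        _ ≤ 2 * G + 16 * τ * 1 := by nlinarith
        _ ≤ 2 * G + ε / 2 := by linarith
    have h7 : (y : ℝ) ≤ ε / 2 * (r k N / Real.log (Real.log N)) := by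
      rw [mul_div_assoc', le_div_iff₀ hLL]
      exact e3
    have h8 : (2 * G + ε / 2) * (r k N / Real.log (Real.log N)) +
        ε / 2 * (r k N / Real.log (Real.log N)) =
        (2 * G + ε) * (r k N / Real.log (Real.log N)) := by ring
    linarith
  have h2 := (mass_mono hsub x).trans (mass_union E {N | N < N₁ + 1} x)
  have h3 := mass_lt (E := {N | N < N₁ + 1}) (M := N₁ + 1) (fun _ h => h) x
  have h4 := hE x hx
  have h5 : 0 ≤ Real.log x := Real.log_nonneg (by exact_mod_cast hx)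
  have h6 : τ * Real.log x ≤ ε' * Real.log x := mul_le_mul_of_nonneg_right hτ1 h5
  linarith

end Pool.Agent.Q146.SF
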