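import Pool.Agent.Q146.SF.Ct

/-! Sparse sets that contain asymptotically largest progression-free sets for all `N`. -/

set_option autoImplicit false

namespace Pool.Agent.Q146.SF

open Finset Filter Topology Pool.Agent.H617R3.AP

theorem rS_tail {k N M : ℕ} (hk : 1 ≤ k) {S T : Set ℕ} (h : ∀ n ∈ S, M < n → n ∈ T) :
    rS k S N ≤ rS k T N + M := by
  classical
  obtain ⟨A, hA1, hA2, hA3, hA4⟩ := exists_rS hk S N
  have h1 : A.card ≤ (A.filter fun n => M < n).card + (A.filter fun n => ¬ M < n).card := by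
    rw [← card_union_of_disjoint (disjoint_filter_filter_not _ _ _), filter_union_filter_not_eq]
  have h2 : (A.filter fun n => ¬ M < n).card ≤ M := by
    calc (A.filter fun n => ¬ M < n).card ≤ (Icc 1 M).card := by
          refine card_le_card fun n hn => ?_
          rw [mem_filter] at hn
          have := mem_Icc.1 (hA1 hn.1)
          rw [mem_Icc]
          omega
      _ = M := by rw [Nat.card_Icc]; omega
  have h3 : (A.filter fun n => M < n).card ≤ rS k T N := by
    refine le_rS ((filter_subset _ _).trans hA1) (hA2.mono (filter_subset _ _)) fun n hn => ?_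
    rw [mem_filter] at hn
    exact h n (hA3 n hn.1) hn.2
  omega

/-- **Universal thin sets.** -/
theorem universal {k : ℕ} (hk : 3 ≤ k) {f : ℕ → ℝ} (hf : Tendsto f atTop atTop) :
    ∃ S : Set ℕ, (∀ᶠ N : ℕ in atTop, cnt S N ≤ f N * r k N) ∧
      Tendsto (fun N : ℕ => (rS k S N : ℝ) / r k N) atTop (𝓝 1) := by
  classical
  have h0 : ∀ j : ℕ, ∃ (S : Set ℕ) (C : ℝ), ∀ N : ℕ, 1 ≤ N →
      cnt S N ≤ C * r k N ∧ (1 - 1 / ((j : ℝ) + 1)) * r k N ≤ rS k S N :=
    fun j => thin hk (by positivity)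
  choose S C hSC using h0
  have hC0 : ∀ j, 0 ≤ C j := fun j => by
    have h1 := (hSC j 1 le_rfl).1
    have h2 : (1 : ℝ) ≤ r k 1 := by exact_mod_cast r_pos hk le_rfl
    have h3 := (cnt_nonneg (S j) 1).trans h1
    by_contra hneg
    push Not at hneg
    nlinarith
  have hM : ∀ j : ℕ, ∃ M : ℕ, j ≤ M ∧ ∀ N, M ≤ N → ∑ i ∈ range (j + 1), C i ≤ f N := fun j => by
    obtain ⟨M, hM⟩ := (hf.eventually_ge_atTop (∑ i ∈ range (j + 1), C i)).exists_forall_of_atTop
    exact ⟨max j M, le_max_left _ _, fun N hN => hM N ((le_max_right _ _).trans hN)⟩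
  choose M hM1 hM2 using hM
  obtain ⟨T, hT⟩ : ∃ T : Set ℕ, T = {n | ∃ j, M j < n ∧ n ∈ S j} := ⟨_, rfl⟩
  refine ⟨T, ?_, ?_⟩
  · filter_upwards [hf.eventually_ge_atTop 0, eventually_ge_atTop 1] with N hfN hN
    obtain ⟨P, hP⟩ : ∃ P : Finset ℕ, P = (range N).filter fun j => M j < N := ⟨_, rfl⟩
    have h1 : cnt T N ≤ ∑ j ∈ P, cnt (S j) N := by
      have h2 : (Icc 1 N).filter (fun n => n ∈ T) ⊆
          P.biUnion fun j => (Icc 1 N).filter fun n => n ∈ S j := by
        intro n hn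
        rw [mem_filter] at hn
        have hnT : n ∈ {n | ∃ j, M j < n ∧ n ∈ S j} := hT ▸ hn.2
        obtain ⟨j, hj1, hj2⟩ := hnT
        have hnI := mem_Icc.1 hn.1
        rw [mem_biUnion]
        refine ⟨j, ?_, mem_filter.2 ⟨hn.1, hj2⟩⟩
        rw [hP, mem_filter, mem_range]
        have := hM1 j
        omega
      have h3 := (card_le_card h2).trans card_biUnion_le
      rw [cnt_eq_card]
      have h4 : ∑ j ∈ P, cnt (S j) N = ∑ j ∈ P, (((Icc 1 N).filter fun n => n ∈ S j).card : ℝ) :=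
        sum_congr rfl fun j _ => cnt_eq_card _ _
      rw [h4]
      exact_mod_cast h3
    have h2 : ∑ j ∈ P, cnt (S j) N ≤ ∑ j ∈ P, C j * r k N :=
      sum_le_sum fun j _ => (hSC j N hN).1
    rw [← sum_mul] at h2
    have hr0 : (0 : ℝ) ≤ r k N := Nat.cast_nonneg _
    rcases P.eq_empty_or_nonempty with hPe | hPn
    · rw [hPe, sum_empty] at h1
      exact h1.trans (by positivity)
    · have hJ := P.max'_mem hPn
      obtain ⟨J, hJ'⟩ : ∃ J, J = P.max' hPn := ⟨_, rfl⟩
      rw [← hJ'] at hJ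
      have hsub : P ⊆ range (J + 1) := fun j hj => by
        rw [mem_range]
        have := P.le_max' j hj
        omega
      have h3 : ∑ j ∈ P, C j ≤ ∑ j ∈ range (J + 1), C j :=
        sum_le_sum_of_subset_of_nonneg hsub fun i _ _ => hC0 i
      have h4 : M J < N := by
        rw [hP, mem_filter] at hJ
        exact hJ.2
      have h5 := hM2 J N h4.le
      exact h1.trans (h2.trans (mul_le_mul_of_nonneg_right (h3.trans h5) hr0))
  · rw [Metric.tendsto_atTop]
    intro ε hε
    obtain ⟨j, hj⟩ := exists_nat_gt (2 / ε)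
    have hj0 : (0 : ℝ) < (j : ℝ) + 1 := by positivity
    obtain ⟨N₀, hN₀⟩ := ((Pool.Agent.TH106.AP3.tendsto_r hk).eventually_ge_atTop
      (((j : ℝ) + 1) * M j)).exists_forall_of_atTop
    refine ⟨max 1 N₀, fun N hN => ?_⟩
    have hN1 : 1 ≤ N := (le_max_left _ _).trans hN
    have h1 := hN₀ N ((le_max_right _ _).trans hN)
    have h2 := (hSC j N hN1).2
    have h3 : rS k (S j) N ≤ rS k T N + M j := rS_tail (by omega) fun n hn hlt => by
      rw [hT]
      exact ⟨j, hlt, hn⟩
    have h3' : (rS k (S j) N : ℝ) ≤ rS k T N + M j := by exact_mod_cast h3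
    have h4 : (rS k T N : ℝ) ≤ r k N := by exact_mod_cast rS_le_r (by omega) T N
    have hr : (1 : ℝ) ≤ r k N := by exact_mod_cast r_pos hk hN1
    have hr' : (0 : ℝ) < r k N := by linarith
    have h5 : (M j : ℝ) ≤ 1 / ((j : ℝ) + 1) * r k N := by
      rw [div_mul_eq_mul_div, one_mul, le_div_iff₀ hj0, mul_comm]
      exact h1
    have h6 : (1 - 2 * (1 / ((j : ℝ) + 1))) * r k N ≤ rS k T N := by nlinarith
    have h7 : 1 - 2 * (1 / ((j : ℝ) + 1)) ≤ (rS k T N : ℝ) / r k N := by
      rw [le_div_iff₀ hr']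
      exact h6
    have h8 : (rS k T N : ℝ) / r k N ≤ 1 := by
      rw [div_le_one hr']
      exact h4
    have h9 : 2 * (1 / ((j : ℝ) + 1)) < ε := by
      rw [mul_one_div, div_lt_iff₀ hj0]
      rw [div_lt_iff₀ hε] at hj
      nlinarith
    rw [Real.dist_eq, abs_lt]
    constructor <;> linarith

end Pool.Agent.Q146.SF
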